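import Pool.Agent.Helper30E.G1

/-!
From covers to the energy equality, for a general viscosity; the theorem on sets which are null for
the gauge `r k(r) ^ 2`.
-/

set_option autoImplicit false

open MeasureTheory Set Metric
open scoped ContDiff ENNReal

namespace Pool.Agent.Helper30E

open H459R3.NS W221.NS Pool.Agent.Y8 Pool.Agent.N977.H Pool.Agent.N976.TL Pool.Agent.N976.EQ
open Pool.Agent.Y96.NS EQ0

/-- The concentration of the defect. -/
def Conc (ν T : ℝ) (G : Set ℝ) (u : ℝ → V → V) (p : ℝ → V → ℝ) (S : Set (ℝ × V)) : Prop :=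
  ∀ ε : ℝ, 0 < ε → ∃ U : Set (ℝ × V), IsOpen U ∧
    (∀ t ∈ Ioo 0 T, ∀ x : V, (SingPt G u t x → (t, x) ∈ S) → (t, x) ∈ U) ∧
    ∀ ψ : ℝ → V → ℝ, Test T ψ → (∀ t x, 0 ≤ ψ t x) → (∀ t x, ψ t x ≤ 1) →
      tsupport (fun z : ℝ × V => ψ z.1 z.2) ⊆ U → ∫ t in G, DD ν u p ψ t ≤ ε

/-- The covers of the rescaled solution. -/
def CovS (ν T : ℝ) (G : Set ℝ) (u : ℝ → V → V) (p : ℝ → V → ℝ) (S : Set (ℝ × V)) : Prop :=
  ∀ ε : ℝ, 0 < ε → Cov (ν * T) {t | t / ν ∈ G} (fun t x => ν⁻¹ • u (t / ν) x)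
    (fun t x => (ν ^ 2)⁻¹ * p (t / ν) x) {z : ℝ × V | (z.1 / ν, z.2) ∈ S} ε

theorem conc_of_covs {ν T E D : ℝ} {G : Set ℝ} {u : ℝ → V → V} {p : ℝ → V → ℝ} (hν : 0 < ν)
    (hN : Turb ν T E D G u p) {S : Set (ℝ × V)} (h : CovS ν T G u p S) : Conc ν T G u p S := by
  intro ε hε
  have h1 := (t_WSCAL ν T E D G u p hν hN).1
  obtain ⟨U, hU, hcov, hUl⟩ := conc_of_cov h1 (show 0 < ε / ν ^ 2 by positivity)
    (h (ε / ν ^ 2) (by positivity))
  refine ⟨(fun z : ℝ × V => (ν * z.1, z.2)) ⁻¹' U, hU.preimage (by fun_prop), ?_, ?_⟩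
  · intro t ht x hx
    refine hcov (ν * t, x) ⟨mul_pos hν ht.1, mul_lt_mul_of_pos_left ht.2 hν⟩ fun hs => ?_
    have hs' := sing_div hν hs
    rw [mul_div_cancel_left₀ t hν.ne'] at hs'
    show (ν * t / ν, x) ∈ S
    rw [mul_div_cancel_left₀ t hν.ne']
    exact hx hs'
  · intro ψ hψ hψ0 hψ1 hs
    rw [ll_sc hν hN.openG]
    have h2 := hUl (fun s x => ψ (s / ν) x) (test_div hν hψ) (fun t x => hψ0 _ _)
      (fun t x => hψ1 _ _) (by
        rintro ⟨t, x⟩ hz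
        have h4 := hs (supp_div hν hz)
        have h5 : (ν * (t / ν), x) ∈ U := h4
        rwa [mul_div_cancel₀ t hν.ne'] at h5)
    calc ν ^ 2 * _ ≤ ν ^ 2 * (ε / ν ^ 2) := mul_le_mul_of_nonneg_left h2 (by positivity)
      _ = ε := by field_simp

/-- The local energy equality. -/
theorem loc_of_covs {ν T E D : ℝ} {G : Set ℝ} {u : ℝ → V → V} {p : ℝ → V → ℝ} (hν : 0 < ν)
    (hN : Turb ν T E D G u p) {S : Set (ℝ × V)} (h : CovS ν T G u p S) {φ : ℝ → V → ℝ}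
    (hφ : Test T φ) (hφ0 : ∀ t x, 0 ≤ φ t x)
    (hd : ∀ t x, (t, x) ∈ tsupport (fun z : ℝ × V => φ z.1 z.2) → SingPt G u t x → (t, x) ∈ S) :
    ∫ t in G, DD ν u p φ t = 0 := by
  have h1 := (t_WSCAL ν T E D G u p hν hN).1
  rw [ll_sc hν hN.openG]
  rw [loc_of_conc t_L0 h1 (test_div hν hφ) (fun t x => hφ0 _ _), mul_zero]
  intro ε hε
  obtain ⟨U, hU, hcov, hUl⟩ := conc_of_covs hν hN h (ν ^ 2 * ε) (by positivity)
  refine ⟨(fun z : ℝ × V => (z.1 / ν, z.2)) ⁻¹' U, ?_, ?_⟩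
  · rintro ⟨t, x⟩ hz
    have h4 := supp_div hν hz
    exact hcov (t / ν) (hφ.supp h4).1 x (hd _ _ h4)
  · intro ψ hψ hψ0 hψ1 hs
    have h2 := hUl (fun s x => ψ (ν * s) x) (test_mul hν hψ) (fun t x => hψ0 _ _)
      (fun t x => hψ1 _ _) (by
        rintro ⟨t, x⟩ hz
        have h6 : (ν * t, x) ∈ tsupport (fun z : ℝ × V => ψ z.1 z.2) := by
          have h7 := supp_div (inv_pos.2 hν) (φ := ψ) (t := t) (x := x) (by
            have e : (fun z : ℝ × V => ψ (z.1 / ν⁻¹) z.2) = fun z : ℝ × V => ψ (ν * z.1) z.2 := by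
              funext z
              rw [div_inv_eq_mul, mul_comm]
            rw [e]
            exact hz)
          rwa [div_inv_eq_mul, mul_comm] at h7
        have h8 := hs h6
        have h9 : (ν * t / ν, x) ∈ U := h8
        rwa [mul_div_cancel_left₀ t hν.ne'] at h9)
    rw [ll_sc hν hN.openG] at h2
    have e : (fun s x => ψ (ν * (s / ν)) x) = ψ := by
      funext s x
      rw [mul_div_cancel₀ s hν.ne']
    rw [e] at h2
    exact le_of_mul_le_mul_left h2 (by positivity)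

/-- The energy equality. -/
theorem glob_of_covs {ν T E D : ℝ} {G : Set ℝ} {u : ℝ → V → V} {p : ℝ → V → ℝ} (hν : 0 < ν)
    (hN : Turb ν T E D G u p) {S : Set (ℝ × V)} (h : CovS ν T G u p S)
    (hd : ∀ t ∈ Ioo 0 T, ∀ x, SingPt G u t x → (t, x) ∈ S) :
    ∀ s ∈ G, ∀ t ∈ G, s ≤ t →
      energy (u t) + 2 * ν * (∫ τ in Ioo s t, enstrophy (u τ)) = energy (u s) := by
  have h1 := (t_WSCAL ν T E D G u p hν hN).1
  have hmem : ∀ s ∈ G, ν * s ∈ {t | t / ν ∈ G} := by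
    intro s hs
    show ν * s / ν ∈ G
    rwa [mul_div_cancel_left₀ s hν.ne']
  intro s hs t ht hst
  have h2 := t_E4 _ _ _ _ _ _ h1 (by
    intro φ hφ hφ0
    have hφ' : Test T (fun s x => φ (ν * s) x) := test_mul hν hφ
    have h5 := loc_of_covs hν hN h hφ' (fun t x => hφ0 _ _)
      (fun t x hz hs => hd t (hφ'.supp hz).1 x hs)
    rw [ll_sc hν hN.openG] at h5
    have e : (fun s x => φ (ν * (s / ν)) x) = φ := by
      funext s x
      rw [mul_div_cancel₀ s hν.ne']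
    rw [e] at h5
    rcases mul_eq_zero.1 h5 with h6 | h6
    · exact absurd h6 (by positivity)
    · exact h6) (ν * s) (hmem s hs) (ν * t) (hmem t ht) (mul_le_mul_of_nonneg_left hst hν.le)
  simp_rw [energy_sm, enstrophy_sm, mul_div_cancel_left₀ _ hν.ne'] at h2
  rw [integral_const_mul] at h2
  have h3 : ∫ τ in Ioo (ν * s) (ν * t), enstrophy (u (τ / ν))
      = ν * ∫ τ in Ioo s t, enstrophy (u τ) := by
    have e : Ioo (ν * s) (ν * t) = {τ : ℝ | τ / ν ∈ Ioo s t} := by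
      ext τ
      show _ ↔ τ / ν ∈ Ioo s t
      simp only [mem_Ioo, lt_div_iff₀ hν, div_lt_iff₀ hν, mul_comm s, mul_comm t]
    rw [e]
    exact int_div hν isOpen_Ioo (fun τ => enstrophy (u τ))
  rw [h3] at h2
  have h5 : (ν⁻¹ ^ 2) ≠ 0 := by positivity
  have h6 : ν⁻¹ ^ 2 * (energy (u t) - energy (u s))
      = ν⁻¹ ^ 2 * (-(2 * ν) * ∫ τ in Ioo s t, enstrophy (u τ)) := by
    linear_combination h2
  have h7 := mul_left_cancel₀ h5 h6
  linarith

/-- Countable unions. -/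
theorem covs_iUnion {ν T : ℝ} {G : Set ℝ} {u : ℝ → V → V} {p : ℝ → V → ℝ}
    {S : ℕ → Set (ℝ × V)} (h : ∀ n, CovS ν T G u p (S n)) : CovS ν T G u p (⋃ n, S n) := by
  intro ε hε
  obtain ⟨ι, hι, U, c, hU, hc0, hcs, hcv, hcl⟩ := cov_iUnion (fun n => h n) hε
  refine ⟨ι, hι, U, c, hU, hc0, hcs, fun z hz ht hs => hcv z ?_ ht hs, hcl⟩
  obtain ⟨n, hn⟩ := mem_iUnion.1 (show (z.1 / ν, z.2) ∈ ⋃ n, S n from hz)
  exact mem_iUnion.2 ⟨n, hn⟩

/-- The set is null for the gauge `g`. -/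
def NullG (ν : ℝ) (g : ℝ → ℝ) (S : Set (ℝ × V)) : Prop :=
  ∀ ε > 0, ∃ (ι : Type) (_ : Countable ι) (s : ι → ℝ) (y : ι → V) (r : ι → ℝ),
    (∀ i, 0 < r i ∧ r i ≤ ε) ∧ ∑' i, ENNReal.ofReal (g (r i)) ≤ ENNReal.ofReal ε ∧
      ∀ t x, (t, x) ∈ S → ∃ i, ν * |t - s i| < r i ^ 2 ∧ ‖x - y i‖ < r i

/-- Null sets, for the dyadic radii and the rescaled times. -/
theorem cn_of {ν : ℝ} (hν : 0 < ν) {k : ℝ → ℝ} {r₀ : ℝ}
    (hk : ∀ r ∈ Ioc 0 r₀, 1 ≤ k r) (hmono : AntitoneOn k (Ioc 0 r₀)) {J₀ : ℕ} (hJ₀ : rr J₀ ≤ r₀)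
    {S : Set (ℝ × V)} (hS : NullG ν (fun r => r * k r ^ 2) S) :
    CN (fun n => k (rr (max n J₀)) ^ 2) {z : ℝ × V | (z.1 / ν, z.2) ∈ S} := by
  intro ε hε
  obtain ⟨ε', hε'⟩ : ∃ ε', ε' = min (ε / 2) (rr (J₀ + 1)) := ⟨_, rfl⟩
  have hε'0 : 0 < ε' := by
    rw [hε']
    exact lt_min (by positivity) (rr0 _)
  obtain ⟨ι, hι, s, y, r, hr, hsum, hcov⟩ := hS ε' hε'0
  have hex : ∀ i, ∃ n : ℕ, J₀ ≤ n ∧ rr (n + 1) < r i ∧ r i ≤ rr n := by
    intro i
    have hr1 : r i ≤ 1 := (hr i).2.trans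
      (((by rw [hε']; exact min_le_right _ _ : ε' ≤ rr (J₀ + 1))).trans (rr1 _))
    obtain ⟨n, hn1, hn2⟩ := exists_nat_pow_near_of_lt_one (hr i).1 hr1
      (show (0 : ℝ) < 1 / 2 by norm_num) (by norm_num)
    refine ⟨n, ?_, hn1, hn2⟩
    by_contra hcon
    have h3 : rr (J₀ + 1) ≤ rr (n + 1) := rr_anti (by omega)
    have h4 : r i ≤ rr (J₀ + 1) := (hr i).2.trans (by rw [hε']; exact min_le_right _ _)
    have h5 : rr (n + 1) < r i := hn1
    linarith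
  choose n hn0 hn1 hn2 using hex
  refine ⟨ι, hι, n, fun i => (ν * s i, y i), ?_, ?_⟩
  · rintro ⟨t, x⟩ hz
    obtain ⟨i, h1, h2⟩ := hcov (t / ν) x hz
    refine mem_iUnion.2 ⟨i, ?_, ?_⟩
    · show t ∈ Wi (ν * s i) (n i)
      have h3 : |t - ν * s i| < rr (n i) ^ 2 := by
        have e : ν * |t / ν - s i| = |t - ν * s i| := by
          rw [show t / ν - s i = (t - ν * s i) / ν by field_simp, abs_div, abs_of_pos hν]
          field_simp
        rw [e] at h1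
        exact h1.trans_le (pow_le_pow_left₀ (hr i).1.le (hn2 i) 2)
      rw [abs_lt] at h3
      unfold Wi
      exact ⟨by linarith [h3.1], by linarith [h3.2]⟩
    · show x ∈ ball (y i) (rr (n i))
      rw [mem_ball_iff_norm]
      exact h2.trans_le (hn2 i)
  · have h1 : ∀ i, ENNReal.ofReal (rr (n i) * k (rr (max (n i) J₀)) ^ 2)
        ≤ ENNReal.ofReal 2 * ENNReal.ofReal (r i * k (r i) ^ 2) := by
      intro i
      rw [← ENNReal.ofReal_mul (by norm_num)]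
      apply ENNReal.ofReal_le_ofReal
      rw [max_eq_left (hn0 i)]
      have h2 : rr (n i) ≤ r₀ := (rr_anti (hn0 i)).trans hJ₀
      have h3 : rr (n i) ∈ Ioc 0 r₀ := ⟨rr0 _, h2⟩
      have h4 : r i ∈ Ioc 0 r₀ := ⟨(hr i).1, (hn2 i).trans h2⟩
      have h5 : k (rr (n i)) ≤ k (r i) := hmono h4 h3 (hn2 i)
      have h6 : rr (n i) = 2 * rr (n i + 1) := by unfold rr; rw [pow_succ]; ring
      have h7 := hn1 i
      have h8 : k (rr (n i)) ^ 2 ≤ k (r i) ^ 2 :=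
        pow_le_pow_left₀ (by linarith [hk _ h3]) h5 2
      have h9 : 0 ≤ k (r i) ^ 2 := sq_nonneg _
      have h10 := rr0 (n i)
      calc rr (n i) * k (rr (n i)) ^ 2 ≤ rr (n i) * k (r i) ^ 2 := by gcongr
        _ ≤ (2 * r i) * k (r i) ^ 2 := by
            apply mul_le_mul_of_nonneg_right _ h9
            linarith
        _ = 2 * (r i * k (r i) ^ 2) := by ring
    calc ∑' i, ENNReal.ofReal (rr (n i) * k (rr (max (n i) J₀)) ^ 2)
        ≤ ∑' i, ENNReal.ofReal 2 * ENNReal.ofReal (r i * k (r i) ^ 2) :=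
          ENNReal.tsum_le_tsum h1
      _ = ENNReal.ofReal 2 * ∑' i, ENNReal.ofReal (r i * k (r i) ^ 2) := ENNReal.tsum_mul_left
      _ ≤ ENNReal.ofReal 2 * ENNReal.ofReal ε' := mul_le_mul_right hsum _
      _ = ENNReal.ofReal (2 * ε') := (ENNReal.ofReal_mul (by norm_num)).symm
      _ ≤ ENNReal.ofReal ε := by
          apply ENNReal.ofReal_le_ofReal
          have : ε' ≤ ε / 2 := by rw [hε']; exact min_le_left _ _
          linarith

/-- The covers of a set which is null for the gauge `r k(r) ^ 2` and at the points of which the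
dissipation is `O(r k(r))`. -/
theorem covs_null {ν T E D : ℝ} {G : Set ℝ} {u : ℝ → V → V} {p : ℝ → V → ℝ} (hν : 0 < ν)
    (hN : Turb ν T E D G u p) {k : ℝ → ℝ} {r₀ : ℝ} (hr₀ : 0 < r₀)
    (hk : ∀ r ∈ Ioc 0 r₀, 1 ≤ k r) (hmono : AntitoneOn k (Ioc 0 r₀))
    {S : Set (ℝ × V)} (hS : NullG ν (fun r => r * k r ^ 2) S)
    (hT : ∀ t ∈ Ioo 0 T, ∀ x, (t, x) ∈ S → SingPt G u t x → Tm ν (fun r => r * k r) G u t x) :
    CovS ν T G u p S := by
  have h1 := (t_WSCAL ν T E D G u p hν hN).1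
  obtain ⟨J₀, hJ₀⟩ := ex_rr hr₀
  have hin : ∀ n, rr (max n J₀) ∈ Ioc 0 r₀ := fun n =>
    ⟨rr0 _, (rr_anti (le_max_right _ _)).trans hJ₀⟩
  intro ε hε
  refine cov_null (p_Q9 p_K2) t_D1 h1 (K := fun n => k (rr (max n J₀)))
    (fun n => hk _ (hin n)) ?_ (cn_of hν hk hmono hJ₀ hS) ?_ hε
  · intro a b hab
    exact hmono (hin b) (hin a) (rr_anti (max_le_max_right _ hab))
  · rintro ⟨t, x⟩ hz ht hs
    have hs' := sing_div hν hs
    have ht' : t / ν ∈ Ioo 0 T := by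
      refine ⟨div_pos ht.1 hν, ?_⟩
      rw [div_lt_iff₀ hν, mul_comm]
      exact ht.2
    have h2 := hT (t / ν) ht' x hz hs'
    obtain ⟨M, hM⟩ := grg_of (J₀ := J₀) (g := fun n => k (rr (max n J₀))) hν hN
      (fun n => hk _ (hin n))
      (fun J hJ => by
        have h3 := hin J
        rw [max_eq_left hJ] at h3
        have h4 := hk _ h3
        have h5 := h3.1
        show 0 ≤ rr J * k (rr J)
        nlinarith)
      (fun J hJ => by
        show rr J * k (rr J) ≤ rr J * k (rr (max J J₀))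
        rw [max_eq_left hJ]) (t / ν) x h2
    rw [mul_div_cancel₀ t hν.ne'] at hM
    exact ⟨M, hM⟩

end Pool.Agent.Helper30E
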