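import Pool.Agent.Helper30K1.Crt3
import Pool.Agent.Helper30E.G2

/-!
The energy equality for suitable weak periodic solutions one component of which is in the critical
Serrin class.
-/

set_option autoImplicit false

open MeasureTheory Set Metric
open scoped ContDiff ENNReal

namespace Pool.Agent.Helper30E

open H459R3.NS W221.NS Pool.Agent.Y8 Pool.Agent.N977.H Pool.Agent.N976.TL Pool.Agent.N976.EQ
open Pool.Agent.Helper30K1 (Ab Bb Nq SlW PNull PCyl)

/-- The growth. -/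
noncomputable def K4 (n : ℕ) : ℝ := (2 : ℝ) ^ ((n : ℝ) / 4)

lemma K4_one (n : ℕ) : 1 ≤ K4 n := Real.one_le_rpow (by norm_num) (by positivity)

lemma K4_mono : Monotone K4 := by
  intro a b hab
  refine Real.rpow_le_rpow_of_exponent_le (by norm_num) ?_
  have : (a : ℝ) ≤ b := by exact_mod_cast hab
  linarith

lemma K4_sq (n : ℕ) : rr n * K4 n ^ 2 = rr n ^ (1 / 2 : ℝ) := by
  have h1 : K4 n ^ 2 = (2 : ℝ) ^ ((n : ℝ) / 2) := by
    unfold K4
    rw [← Real.rpow_natCast, ← Real.rpow_mul (by norm_num)]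
    congr 1
    push_cast
    ring
  have h2 : rr n = (2 : ℝ) ^ (-(n : ℝ)) := by
    unfold rr
    rw [Real.rpow_neg (by norm_num), Real.rpow_natCast, one_div, inv_pow]
  rw [h1, h2, ← Real.rpow_mul (by norm_num), ← Real.rpow_add (by norm_num)]
  congr 1
  ring

section

variable {T E D : ℝ} {G : Set ℝ} {u : ℝ → V → V} {p : ℝ → V → ℝ}

lemma Bb_mono (v : V → V) (j : Fin 3) (c : ℝ) {R R' : ℝ} (hR0 : 0 ≤ R) (hR : R ≤ R') :
    Bb v j c R ≤ Bb v j c R' := by
  unfold Bb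
  refine lintegral_mono_set (inter_subset_inter_right _ ?_)
  intro x hx
  rw [Pool.Agent.Helper30K1.mem_Sb] at hx ⊢
  exact hx.trans_le (pow_le_pow_left₀ hR0 hR 2)

/-- The dissipation in a cylinder and in a slab. -/
lemma cy_le (h : Turb 1 T E D G u p) (j : Fin 3) (z : ℝ × V) {i : ℕ} (hi : 1 ≤ i) {R : ℝ}
    (hR : rr i ≤ R) : ∫⁻ q in Cy i z, gG G u q ≤ ∫⁻ t in Wi z.1 i ∩ G, Bb (u t) j (z.2 j) R := by
  rw [D1.lint_Cy (D1.gG_meas h)]
  have h0 := rr0 i
  have hr2 : rr i ≤ 1 / 2 := by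
    have h1 := rr_anti hi
    have h2 : rr 1 = 1 / 2 := by unfold rr; norm_num
    linarith
  have h1 : ∀ τ, ∫⁻ y in ball z.2 (rr i), gG G u (τ, y)
      ≤ G.indicator (fun τ => Bb (u τ) j (z.2 j) R) τ := by
    intro τ
    by_cases hτ : τ ∈ G
    · have hu := h.spv hτ
      have h4 : ∀ y, gG G u (τ, y) = ENNReal.ofReal (gsq (u τ) y) := by
        intro y
        unfold gG
        exact indicator_of_mem (show (τ, y) ∈ G ×ˢ (univ : Set V) from ⟨hτ, mem_univ _⟩) _
      simp only [h4]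
      rw [indicator_of_mem hτ]
      have hgc : Continuous (gsq (u τ)) := (gsq_sm hu.1).continuous
      have h5 : ∫⁻ y in ball z.2 (rr i), ENNReal.ofReal (gsq (u τ) y)
          = ENNReal.ofReal (B2 z.2 (rr i) (u τ)) := by
        unfold B2
        rw [ofReal_integral_eq_lintegral_ofReal (ballint hgc _ _)
          (Filter.Eventually.of_forall fun x => gsq_nn _ _)]
      rw [h5]
      exact (Pool.Agent.Helper30K1.B2_slab hu (R := rr i) (by simp) hr2).trans
        (Bb_mono _ _ _ h0.le hR)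
    · rw [indicator_of_notMem hτ]
      have h4 : ∀ y, gG G u (τ, y) = 0 := by
        intro y
        unfold gG
        exact indicator_of_notMem (fun h => hτ h.1) _
      simp only [h4, lintegral_zero]
      exact le_rfl
  refine (lintegral_mono h1).trans (le_of_eq ?_)
  rw [lintegral_indicator h.openG.measurableSet, Measure.restrict_restrict h.openG.measurableSet,
    inter_comm]

/-- The growth of the dissipation in the critical class. -/
theorem grg_slab (h : Turb 1 T E D G u p) {q m : ℝ} (hq : 3 < q) (hm : 2 ≤ m)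
    (hqm : 2 / m + 3 / q = 1) (j : Fin 3) (hY : ∫⁻ t in G, Nq q u j t ^ (m / q) ≠ ⊤)
    {z : ℝ × V} (hz : z.1 ∈ Ioo 0 T) : ∃ M, GrG G u K4 M z := by
  have hlog : 0 < Real.log 2 := Real.log_pos (by norm_num)
  obtain ⟨Z, n₀, hZ, hSl⟩ := Pool.Agent.Helper30K1.slW h hq hm hqm j hY hz.1
    (κ := Real.log 2 / 4) (by positivity)
  obtain ⟨C, hC, hb⟩ := D2.gG_bd
  have hb := hb T E D G u p h z
  obtain ⟨n₁, hn₁⟩ := C2.c2_exists_rr (a := T - z.1) (by linarith [hz.2])
  obtain ⟨k, hk⟩ : ∃ k, k = max (n₀ + 1) n₁ := ⟨_, rfl⟩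
  have hm0 : 0 < m := by linarith
  have hm1 : 0 < 1 / m := by positivity
  have hm2 : 1 / m ≤ 1 / 2 := by apply one_div_le_one_div_of_le <;> linarith
  refine ⟨2 * Z + C * |D| / rr k, fun i => ?_⟩
  have hri := rr0 i
  have hrk := rr0 k
  have hK := K4_one i
  rcases le_or_gt k i with hki | hki
  · have hi1 : n₀ + 1 ≤ i := ((le_max_left _ _).trans hk.ge).trans hki
    have hi2 : n₁ ≤ i := ((le_max_right _ _).trans hk.ge).trans hki
    obtain ⟨n, rfl⟩ : ∃ n, i = n + 1 := ⟨i - 1, by omega⟩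
    have hrn : rr n = 2 * rr (n + 1) := by unfold rr; rw [pow_succ]; ring
    have hT : z.1 + rr (n + 1) ^ 2 ≤ T := by
      have h1 := hn₁ (n + 1) hi2
      have h2 := C2.c2_rr_sq (n + 1)
      linarith
    have h1 := (hSl (z.1 + rr (n + 1) ^ 2) ⟨by
      have : 0 < rr (n + 1) ^ 2 := by positivity
      linarith, hT⟩ (z.2 j) n (by omega)).2
    refine (cy_le h j z (by omega) (R := rr n) (by rw [hrn]; linarith)).trans ?_
    refine (lintegral_mono_set (inter_subset_inter_left _ ?_)).trans (h1.trans ?_)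
    · unfold Wi
      refine Ioo_subset_Ioo ?_ le_rfl
      rw [hrn]
      have : 0 < rr (n + 1) ^ 2 := by positivity
      nlinarith
    · apply ENNReal.ofReal_le_ofReal
      have h2 : Real.exp (Real.log 2 / 4 * ((n : ℝ) + 1) ^ (1 - 1 / m)) ≤ K4 (n + 1) := by
        unfold K4
        rw [Real.rpow_def_of_pos (show (0 : ℝ) < 2 by norm_num)]
        apply Real.exp_le_exp.2
        have h3 : ((n : ℝ) + 1) ^ (1 - 1 / m) ≤ ((n : ℝ) + 1) ^ (1 : ℝ) := by
          apply Real.rpow_le_rpow_of_exponent_le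
          · have := Nat.cast_nonneg (α := ℝ) n
            linarith
          · linarith
        rw [Real.rpow_one] at h3
        push_cast
        calc Real.log 2 / 4 * ((n : ℝ) + 1) ^ (1 - 1 / m) ≤ Real.log 2 / 4 * ((n : ℝ) + 1) := by
              gcongr
          _ = Real.log 2 * (((n : ℝ) + 1) / 4) := by ring
      have h4 : 0 ≤ C * |D| / rr k := by positivity
      calc Z * Real.exp (Real.log 2 / 4 * ((n : ℝ) + 1) ^ (1 - 1 / m)) * rr n
          ≤ Z * K4 (n + 1) * rr n := by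
            have := rr0 n
            gcongr
        _ = 2 * Z * K4 (n + 1) * rr (n + 1) := by rw [hrn]; ring
        _ ≤ (2 * Z + C * |D| / rr k) * K4 (n + 1) * rr (n + 1) := by
            gcongr
            linarith
  · refine (hb i).trans (ENNReal.ofReal_le_ofReal ?_)
    have h6 : rr k ≤ rr i := rr_anti hki.le
    have h7 : C * |D| ≤ C * |D| / rr k * rr i := by
      rw [div_mul_eq_mul_div, le_div_iff₀ hrk]
      exact mul_le_mul_of_nonneg_left h6 (by positivity)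
    have h8 : C * |D| / rr k * rr i ≤ C * |D| / rr k * K4 i * rr i := by
      have : 0 ≤ C * |D| / rr k := by positivity
      have h9 : C * |D| / rr k * 1 ≤ C * |D| / rr k * K4 i := mul_le_mul_of_nonneg_left hK this
      nlinarith
    have h9 : 0 ≤ 2 * Z * K4 i * rr i := by positivity
    nlinarith

/-- A set of dimension zero, in dyadic form. -/
theorem cn_pnull {S : Set (ℝ × V)} (hS : PNull (1 / 2) S) : CN (fun i => K4 i ^ 2) S := by
  intro ε hε
  obtain ⟨ε', hε'⟩ : ∃ ε', ε' = min (ε / 2) 1 := ⟨_, rfl⟩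
  have hε'0 : 0 < ε' := by
    rw [hε']
    exact lt_min (by positivity) one_pos
  obtain ⟨ι, hι, z, r, hr, hcov, hsum⟩ := hS ε' hε'0
  have hex : ∀ i, ∃ n : ℕ, rr (n + 1) < r i ∧ r i ≤ rr n := by
    intro i
    have hr1 : r i ≤ 1 := (hr i).2.trans (by rw [hε']; exact min_le_right _ _)
    obtain ⟨n, hn1, hn2⟩ := exists_nat_pow_near_of_lt_one (hr i).1 hr1
      (show (0 : ℝ) < 1 / 2 by norm_num) (by norm_num)
    exact ⟨n, hn1, hn2⟩
  choose n hn1 hn2 using hex
  refine ⟨ι, hι, n, z, ?_, ?_⟩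
  · intro w hw
    obtain ⟨i, hi⟩ := mem_iUnion.1 (hcov hw)
    refine mem_iUnion.2 ⟨i, ?_, ?_⟩
    · have h3 : |w.1 - (z i).1| < rr (n i) ^ 2 :=
        hi.1.trans_le (pow_le_pow_left₀ (hr i).1.le (hn2 i) 2)
      rw [abs_lt] at h3
      show w.1 ∈ Wi (z i).1 (n i)
      unfold Wi
      exact ⟨by linarith [h3.1], by linarith [h3.2]⟩
    · show w.2 ∈ ball (z i).2 (rr (n i))
      rw [mem_ball_iff_norm]
      exact hi.2.trans_le (hn2 i)
  · have h1 : ∀ i, ENNReal.ofReal (rr (n i) * K4 (n i) ^ 2)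
        ≤ ENNReal.ofReal 2 * ENNReal.ofReal (r i ^ (1 / 2 : ℝ)) := by
      intro i
      rw [← ENNReal.ofReal_mul (by norm_num), K4_sq]
      apply ENNReal.ofReal_le_ofReal
      have h2 : rr (n i) ≤ 2 * r i := by
        have h3 : rr (n i) = 2 * rr (n i + 1) := by unfold rr; rw [pow_succ]; ring
        linarith [hn1 i]
      have h4 := (hr i).1
      calc rr (n i) ^ (1 / 2 : ℝ) ≤ (2 * r i) ^ (1 / 2 : ℝ) :=
            Real.rpow_le_rpow (rr0 _).le h2 (by norm_num)
        _ = 2 ^ (1 / 2 : ℝ) * r i ^ (1 / 2 : ℝ) := Real.mul_rpow (by norm_num) h4.le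
        _ ≤ 2 * r i ^ (1 / 2 : ℝ) := by
            have h5 : (2 : ℝ) ^ (1 / 2 : ℝ) ≤ 2 := by
              calc (2 : ℝ) ^ (1 / 2 : ℝ) ≤ 2 ^ (1 : ℝ) :=
                    Real.rpow_le_rpow_of_exponent_le (by norm_num) (by norm_num)
                _ = 2 := Real.rpow_one 2
            gcongr
    calc ∑' i, ENNReal.ofReal (rr (n i) * K4 (n i) ^ 2)
        ≤ ∑' i, ENNReal.ofReal 2 * ENNReal.ofReal (r i ^ (1 / 2 : ℝ)) := ENNReal.tsum_le_tsum h1
      _ = ENNReal.ofReal 2 * ∑' i, ENNReal.ofReal (r i ^ (1 / 2 : ℝ)) := ENNReal.tsum_mul_left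
      _ ≤ ENNReal.ofReal 2 * ENNReal.ofReal ε' := mul_le_mul_right hsum _
      _ = ENNReal.ofReal (2 * ε') := (ENNReal.ofReal_mul (by norm_num)).symm
      _ ≤ ENNReal.ofReal ε := by
          apply ENNReal.ofReal_le_ofReal
          have : ε' ≤ ε / 2 := by rw [hε']; exact min_le_left _ _
          linarith

/-- The covers in the critical class, viscosity one. -/
theorem cov_class (h : Turb 1 T E D G u p) {q m : ℝ} (hq : 3 < q) (hm : 2 ≤ m)
    (hqm : 2 / m + 3 / q = 1) (j : Fin 3) (hY : ∫⁻ t in G, Nq q u j t ^ (m / q) ≠ ⊤) {ε : ℝ}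
    (hε : 0 < ε) : Cov T G u p {w : ℝ × V | w.1 ∈ Ioo 0 T ∧ SingPt G u w.1 w.2} ε :=
  cov_null (p_Q9 p_K2) t_D1 h K4_one K4_mono
    (cn_pnull (Pool.Agent.Helper30K1.crit_class1 h hq hm hqm j hY (by norm_num)))
    (fun _ _ ht _ => grg_slab h hq hm hqm j hY ht) hε

end

/-- The covers in the critical class. -/
theorem covs_class {ν T E D : ℝ} {G : Set ℝ} {u : ℝ → V → V} {p : ℝ → V → ℝ} (hν : 0 < ν)
    (h : Turb ν T E D G u p) {q m : ℝ} (hq : 3 < q) (hm : 2 ≤ m)
    (hqm : 2 / m + 3 / q = 1) (j : Fin 3) (hY : ∫⁻ t in G, Nq q u j t ^ (m / q) ≠ ⊤) :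
    CovS ν T G u p {w : ℝ × V | w.1 ∈ Ioo 0 T ∧ SingPt G u w.1 w.2} := by
  obtain ⟨h1, -⟩ := Pool.Agent.Y96.NS.t_WSCAL ν T E D G u p hν h
  intro ε hε
  obtain ⟨ι, hι, U, c, hU, hc0, hcs, hcv, hcl⟩ := cov_class h1 hq hm hqm j
    (Pool.Agent.Helper30K1.Nq_scale hν (by linarith) (by linarith) h.openG j hY) hε
  exact ⟨ι, hι, U, c, hU, hc0, hcs, fun z _ ht hs => hcv z ⟨ht, hs⟩ ht hs, hcl⟩

end Pool.Agent.Helper30E
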