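import Pool.Agent.N976.EQ.Asm

/-!
The defect of the local energy equality near a singular point at which the dissipation is
`O(r k(r))`, and near sets of such points which are null for the gauge `r k(r) ^ 2`.
-/

set_option autoImplicit false

open MeasureTheory Set Metric
open scoped ContDiff ENNReal

namespace Pool.Agent.Helper30E

open H459R3.NS W221.NS Pool.Agent.Y8 Pool.Agent.N977.H Pool.Agent.N976.TL Pool.Agent.N976.EQ
open EQ0

/-- The defect is at most `c` on the set `U`. -/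
def Small (T : ℝ) (G : Set ℝ) (u : ℝ → V → V) (p : ℝ → V → ℝ) (U : Set (ℝ × V)) (c : ℝ) : Prop :=
  ∀ ψ : ℝ → V → ℝ, Test T ψ → (∀ t x, 0 ≤ ψ t x) → (∀ t x, ψ t x ≤ 1) →
    tsupport (fun z : ℝ × V => ψ z.1 z.2) ⊆ U → LL G u p ψ ≤ c

/-- The sequences. -/
lemma seq_bound {m k₀ : ℕ} {C B a : ℝ} {e X K : ℕ → ℝ} (hC : 0 ≤ C) (ha : 0 ≤ a) (hB : 0 ≤ B)
    (hK1 : ∀ i, 1 ≤ K i) (hKm : Monotone K) (he0 : ∀ i, 0 ≤ e i) (he : ∀ i ≥ k₀, e i ≤ a * K i)
    (hr : ∀ i ≥ k₀, X (i + m) ≤ X i / 4 + C * (e i + e i ^ 2)) (hb : ∀ i ≥ k₀, X i ≤ B * 2 ^ i) :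
    ∀ i ≥ k₀, X i ≤ (B * 2 ^ (k₀ + m) + 2 * C * (a + a ^ 2)) * K i ^ 2 := by
  obtain ⟨R, hR⟩ : ∃ R, R = B * 2 ^ (k₀ + m) + 2 * C * (a + a ^ 2) := ⟨_, rfl⟩
  rw [← hR]
  have hR0 : 0 ≤ R := by rw [hR]; positivity
  have hR1 : B * 2 ^ (k₀ + m) ≤ R := by
    rw [hR]
    have : 0 ≤ 2 * C * (a + a ^ 2) := by positivity
    linarith
  have hR2 : 2 * C * (a + a ^ 2) ≤ R := by
    rw [hR]
    have : 0 ≤ B * 2 ^ (k₀ + m) := by positivity
    linarith
  intro i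
  induction i using Nat.strong_induction_on with
  | _ i ih =>
    intro hi
    have hKi := hK1 i
    rcases lt_or_ge i (k₀ + m) with h | h
    · have h1 : (2 : ℝ) ^ i ≤ 2 ^ (k₀ + m) := pow_le_pow_right₀ (by norm_num) h.le
      have h2 : 1 ≤ K i ^ 2 := one_le_pow₀ hKi
      calc X i ≤ B * 2 ^ i := hb i hi
        _ ≤ B * 2 ^ (k₀ + m) := mul_le_mul_of_nonneg_left h1 hB
        _ ≤ R := hR1
        _ ≤ R * K i ^ 2 := le_mul_of_one_le_right hR0 h2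
    · rcases Nat.eq_zero_or_pos m with hm | hm
      · subst hm
        have h1 := hr i hi
        rw [add_zero] at h1
        have h2 := he i hi
        have h3 := he0 i
        have h4 : e i + e i ^ 2 ≤ (a + a ^ 2) * K i ^ 2 := by
          have h5 : e i ^ 2 ≤ (a * K i) ^ 2 := pow_le_pow_left₀ h3 h2 2
          have h6 : a * K i ≤ a * K i ^ 2 := by
            apply mul_le_mul_of_nonneg_left _ ha
            nlinarith
          calc e i + e i ^ 2 ≤ a * K i ^ 2 + (a * K i) ^ 2 := by linarith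
            _ = (a + a ^ 2) * K i ^ 2 := by ring
        have h5 : C * (e i + e i ^ 2) ≤ R / 2 * K i ^ 2 := by
          calc C * (e i + e i ^ 2) ≤ C * ((a + a ^ 2) * K i ^ 2) :=
                mul_le_mul_of_nonneg_left h4 hC
            _ = (2 * C * (a + a ^ 2)) / 2 * K i ^ 2 := by ring
            _ ≤ R / 2 * K i ^ 2 := by gcongr
        have h6 : 0 ≤ R * K i ^ 2 := by positivity
        linarith
      · obtain ⟨j, rfl⟩ : ∃ j, i = j + m := ⟨i - m, by omega⟩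
        have hj : k₀ ≤ j := by omega
        have h1 := hr j hj
        have h2 := he j hj
        have h3 := he0 j
        have h7 := ih j (by omega) hj
        have hKj := hK1 j
        have h4 : e j + e j ^ 2 ≤ (a + a ^ 2) * K j ^ 2 := by
          have h5 : e j ^ 2 ≤ (a * K j) ^ 2 := pow_le_pow_left₀ h3 h2 2
          have h6 : a * K j ≤ a * K j ^ 2 := by
            apply mul_le_mul_of_nonneg_left _ ha
            nlinarith
          calc e j + e j ^ 2 ≤ a * K j ^ 2 + (a * K j) ^ 2 := by linarith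
            _ = (a + a ^ 2) * K j ^ 2 := by ring
        have h5 : C * (e j + e j ^ 2) ≤ R / 2 * K j ^ 2 := by
          calc C * (e j + e j ^ 2) ≤ C * ((a + a ^ 2) * K j ^ 2) :=
                mul_le_mul_of_nonneg_left h4 hC
            _ = (2 * C * (a + a ^ 2)) / 2 * K j ^ 2 := by ring
            _ ≤ R / 2 * K j ^ 2 := by gcongr
        have h6 : 0 ≤ R * K j ^ 2 := by positivity
        have h8 : R * K j ^ 2 ≤ R * K (j + m) ^ 2 := by
          apply mul_le_mul_of_nonneg_left _ hR0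
          exact pow_le_pow_left₀ (by linarith) (hKm (by omega)) 2
        linarith

/-- The bound of the defect at a point at which the dissipation is `O(r K)`. -/
theorem point_bound (h9 : S_Q9) (hD1 : S_D1) {T E D : ℝ} {G : Set ℝ} {u : ℝ → V → V}
    {p : ℝ → V → ℝ} (hN : Turb 1 T E D G u p) {K : ℕ → ℝ} (hK1 : ∀ i, 1 ≤ K i)
    (hKm : Monotone K) {k₀ : ℕ} (hk : 3 ≤ k₀) {z : ℝ × V} (hz1 : 2 * rr k₀ ^ 2 < z.1)
    (hz2 : z.1 + rr k₀ ^ 2 < T) (hs : SingPt G u z.1 z.2) {M : ℝ} (hG : GrG G u K M z) :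
    ∃ Q : ℝ, ∀ i ≥ k₀, Small T G u p (Cy (i + 3) z) (Q * (rr i * K i ^ 2)) := by
  obtain ⟨m, C, θ, hm, hC, hθ, h9⟩ := h9
  obtain ⟨C₁, hC₁, hD1⟩ := hD1
  obtain ⟨B, hB, h9'⟩ := h9 T E D G u p hN
  obtain ⟨e, X, hP, hL⟩ := h9' k₀ z hk hz1 hz2 hs
  obtain ⟨M', hM', hGM⟩ : ∃ M' : ℝ, 0 ≤ M' ∧ GrG G u K M' z :=
    ⟨max M 0, le_max_right _ _, grg_mono hK1 hG (le_max_left _ _)⟩
  obtain ⟨F, hF⟩ : ∃ F, F = Y7.FtG 16 G u := ⟨_, rfl⟩
  have hFm : Measurable F := by rw [hF]; exact Y7.FtG_meas 16 hN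
  obtain ⟨A, hA⟩ : ∃ A, A = 1 + C₁ * (M' + |D|) := ⟨_, rfl⟩
  have hA0 : 0 ≤ A := by rw [hA]; positivity
  have hdens : ∀ i, ∫⁻ q in Cy i z, F q ≤ ENNReal.ofReal (A * K i * rr i) := by
    intro i
    rw [hF, hA]
    refine (hD1 T E D G u p hN z i).trans (dens' hC₁ hM' (hK1 i) _ fun j hj => ?_)
    refine (hGM j).trans (ENNReal.ofReal_le_ofReal ?_)
    have h0 := rr0 j
    have h6 : K j ≤ K i := hKm hj.le
    gcongr
  have hebd : ∀ i ≥ k₀, e i ≤ 32768 * A * K i := by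
    intro i hi
    have h0 : ENNReal.ofReal (rr i * e i / 32768) ≤ ∫⁻ q in Cy i z, F q :=
      B2.low_int hFm z i (hP.e0 i) (by rw [hF]; exact hP.low i hi)
    have h1 := h0.trans (hdens i)
    have h2 := rr0 i
    have hKi := hK1 i
    rw [ENNReal.ofReal_le_ofReal_iff (by positivity)] at h1
    have h3 : rr i * e i ≤ rr i * (32768 * A * K i) := by
      rw [div_le_iff₀ (by norm_num)] at h1
      linarith
    exact le_of_mul_le_mul_left h3 h2
  obtain ⟨a, ha⟩ : ∃ a, a = 32768 * A := ⟨_, rfl⟩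
  rw [← ha] at hebd
  have ha0 : 0 ≤ a := by rw [ha]; positivity
  have hXb := seq_bound hC.le ha0 (by linarith : (0 : ℝ) ≤ B) hK1 hKm hP.e0 hebd hP.rcs hP.base
  obtain ⟨R, hR⟩ : ∃ R, R = B * 2 ^ (k₀ + m) + 2 * C * (a + a ^ 2) := ⟨_, rfl⟩
  rw [← hR] at hXb
  have hR0 : 0 ≤ R := by
    rw [hR]
    have : 0 ≤ B := by linarith
    positivity
  refine ⟨C * ((1 + √R) * a + a ^ 2), fun i hi ψ hψ hψ0 hψ1 hψs => ?_⟩
  refine (hL i hi ψ hψ hψ0 hψ1 hψs).trans ?_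
  have hKi := hK1 i
  have hri := rr0 i
  have h1 : √(X i) ≤ √R * K i := by
    calc √(X i) ≤ √(R * K i ^ 2) := Real.sqrt_le_sqrt (hXb i hi)
      _ = √R * K i := by rw [Real.sqrt_mul hR0, Real.sqrt_sq (by linarith)]
  have h2 := hebd i hi
  have h3 := hP.e0 i
  have h4 : (1 + √(X i)) * e i ≤ ((1 + √R) * K i) * (a * K i) := by
    apply mul_le_mul _ h2 h3 (by positivity)
    nlinarith
  have h5 : e i ^ 2 ≤ (a * K i) ^ 2 := pow_le_pow_left₀ h3 h2 2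
  calc C * rr i * ((1 + √(X i)) * e i + e i ^ 2)
      ≤ C * rr i * (((1 + √R) * K i) * (a * K i) + (a * K i) ^ 2) := by gcongr
    _ = C * ((1 + √R) * a + a ^ 2) * (rr i * K i ^ 2) := by ring

/-- The set `S` is null for the gauge with the values `rr i * g i` at the levels. -/
def CN (g : ℕ → ℝ) (S : Set (ℝ × V)) : Prop := ∀ ε : ℝ, 0 < ε →
  ∃ (ι : Type) (_ : Countable ι) (n : ι → ℕ) (z : ι → ℝ × V), S ⊆ ⋃ i, Cy (n i) (z i) ∧
    ∑' i, ENNReal.ofReal (rr (n i) * g (n i)) ≤ ENNReal.ofReal ε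

lemma cy_recenter {n : ℕ} {z w : ℝ × V} (h : w ∈ Cy (n + 1) z) : Cy (n + 1) z ⊆ Cy n w := by
  have h4 : rr n = 2 * rr (n + 1) := by unfold rr; rw [pow_succ]; ring
  have hr := rr0 (n + 1)
  rintro q ⟨hq1, hq2⟩
  obtain ⟨h1, h2⟩ := h
  rw [mem_ball_iff_norm] at h2 hq2
  unfold Wi at h1 hq1
  constructor
  · show q.1 ∈ Wi w.1 n
    unfold Wi
    have h5 : rr n ^ 2 = 4 * rr (n + 1) ^ 2 := by rw [h4]; ring
    have h6 : 0 < rr (n + 1) ^ 2 := by positivity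
    constructor
    · linarith [hq1.1, h1.2]
    · linarith [hq1.2, h1.1]
  · rw [mem_ball_iff_norm]
    calc ‖q.2 - w.2‖ = ‖(q.2 - z.2) - (w.2 - z.2)‖ := by rw [sub_sub_sub_cancel_right]
      _ ≤ ‖q.2 - z.2‖ + ‖w.2 - z.2‖ := norm_sub_le _ _
      _ < rr n := by linarith

/-- A cover of the singular points of `S`. -/
def Cov (T : ℝ) (G : Set ℝ) (u : ℝ → V → V) (p : ℝ → V → ℝ) (S : Set (ℝ × V)) (ε : ℝ) : Prop :=
  ∃ (ι : Type) (_ : Countable ι) (U : ι → Set (ℝ × V)) (c : ι → ℝ),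
    (∀ i, IsOpen (U i)) ∧ (∀ i, 0 ≤ c i) ∧ ∑' i, ENNReal.ofReal (c i) ≤ ENNReal.ofReal ε ∧
    (∀ z ∈ S, z.1 ∈ Ioo 0 T → SingPt G u z.1 z.2 → ∃ i, z ∈ U i) ∧
    ∀ i, Small T G u p (U i) (c i)

/-- Countable unions. -/
theorem cov_iUnion {T : ℝ} {G : Set ℝ} {u : ℝ → V → V} {p : ℝ → V → ℝ} {S : ℕ → Set (ℝ × V)}
    (h : ∀ n, ∀ ε : ℝ, 0 < ε → Cov T G u p (S n) ε) {ε : ℝ} (hε : 0 < ε) :
    Cov T G u p (⋃ n, S n) ε := by
  have key := fun n : ℕ => h n (ε / 2 * (1 / 2) ^ n) (by positivity)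
  choose ι hι U c hU hc0 hcs hcv hcl using key
  refine ⟨(n : ℕ) × ι n, inferInstance, fun i => U i.1 i.2, fun i => c i.1 i.2,
    fun i => hU i.1 i.2, fun i => hc0 i.1 i.2, ?_, ?_, fun i => hcl i.1 i.2⟩
  · rw [ENNReal.tsum_sigma' (fun i : (n : ℕ) × ι n => ENNReal.ofReal (c i.1 i.2))]
    refine (ENNReal.tsum_le_tsum fun n => hcs n).trans ?_
    have hs : HasSum (fun n : ℕ => ε / 2 * (1 / 2) ^ n) (ε / 2 * 2) :=
      hasSum_geometric_two.mul_left (ε / 2)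
    rw [← ENNReal.ofReal_tsum_of_nonneg (fun n => by positivity) hs.summable, hs.tsum_eq]
    apply ENNReal.ofReal_le_ofReal
    linarith
  · intro z hz ht hs
    obtain ⟨n, hn⟩ := mem_iUnion.1 hz
    obtain ⟨i, hi⟩ := hcv n z hn ht hs
    exact ⟨⟨n, i⟩, hi⟩

/-- The covers of a null set on which the defect has a uniform bound. -/
theorem cov_unif {T : ℝ} {G : Set ℝ} {u : ℝ → V → V} {p : ℝ → V → ℝ} {K : ℕ → ℝ}
    (hK1 : ∀ i, 1 ≤ K i) (hKm : Monotone K) {S : Set (ℝ × V)} (hS : CN (fun i => K i ^ 2) S)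
    {k₀ : ℕ} {Q : ℝ} (hQ : 0 ≤ Q)
    (hb : ∀ z ∈ S, ∀ i ≥ k₀, Small T G u p (Cy (i + 3) z) (Q * (rr i * K i ^ 2))) {ε : ℝ}
    (hε : 0 < ε) : Cov T G u p S ε := by
  classical
  obtain ⟨δ, hδ⟩ : ∃ δ, δ = min (rr (k₀ + 5)) (ε / (16 * (Q + 1))) := ⟨_, rfl⟩
  have hδ0 : 0 < δ := by
    rw [hδ]
    exact lt_min (rr0 _) (by positivity)
  obtain ⟨ι, hι, n, z, hcov, hsum⟩ := hS δ hδ0
  have hn : ∀ i, k₀ + 5 ≤ n i := by
    intro i
    by_contra hcon
    have h1 : ENNReal.ofReal (rr (n i) * K (n i) ^ 2) ≤ ENNReal.ofReal δ :=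
      (ENNReal.le_tsum i).trans hsum
    rw [ENNReal.ofReal_le_ofReal_iff hδ0.le] at h1
    have h2 : 1 ≤ K (n i) ^ 2 := one_le_pow₀ (hK1 _)
    have h3 := rr0 (n i)
    have h4 : rr (n i) ≤ δ := (le_mul_of_one_le_right h3.le h2).trans h1
    have h5 : rr (k₀ + 5) < rr (n i) := by
      have h6 : n i < k₀ + 5 := by omega
      unfold rr
      exact pow_lt_pow_right_of_lt_one₀ (by norm_num) (by norm_num) h6
    have h7 : δ ≤ rr (k₀ + 5) := by rw [hδ]; exact min_le_left _ _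
    linarith
  refine ⟨{i : ι // (S ∩ Cy (n i) (z i)).Nonempty}, inferInstance,
    fun i => Cy (n i.1 - 4 + 3) i.2.some, fun i => Q * (rr (n i.1 - 4) * K (n i.1 - 4) ^ 2),
    ?_, ?_, ?_, ?_, ?_⟩
  · intro i
    exact isOpen_Ioo.prod isOpen_ball
  · intro i
    have h1 := rr0 (n i.1 - 4)
    show 0 ≤ Q * (rr (n i.1 - 4) * K (n i.1 - 4) ^ 2)
    positivity
  · have h1 : ∀ i : ι, ENNReal.ofReal (Q * (rr (n i - 4) * K (n i - 4) ^ 2))
        ≤ ENNReal.ofReal (16 * Q) * ENNReal.ofReal (rr (n i) * K (n i) ^ 2) := by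
      intro i
      rw [← ENNReal.ofReal_mul (by positivity)]
      apply ENNReal.ofReal_le_ofReal
      have h2 : rr (n i - 4) = 16 * rr (n i) := by
        have h3 := hn i
        obtain ⟨j, hj⟩ : ∃ j, n i = j + 4 := ⟨n i - 4, by omega⟩
        rw [hj, Nat.add_sub_cancel]
        unfold rr
        rw [pow_add]
        norm_num
        ring
      have h4 : K (n i - 4) ^ 2 ≤ K (n i) ^ 2 :=
        pow_le_pow_left₀ (by linarith [hK1 (n i - 4)]) (hKm (by omega)) 2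
      have h5 := rr0 (n i)
      rw [h2]
      calc Q * (16 * rr (n i) * K (n i - 4) ^ 2) ≤ Q * (16 * rr (n i) * K (n i) ^ 2) := by
            gcongr
        _ = 16 * Q * (rr (n i) * K (n i) ^ 2) := by ring
    calc ∑' i : {i : ι // (S ∩ Cy (n i) (z i)).Nonempty},
          ENNReal.ofReal (Q * (rr (n i.1 - 4) * K (n i.1 - 4) ^ 2))
        ≤ ∑' i : ι, ENNReal.ofReal (Q * (rr (n i - 4) * K (n i - 4) ^ 2)) :=
          ENNReal.tsum_comp_le_tsum_of_injective Subtype.val_injective _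
      _ ≤ ∑' i : ι, ENNReal.ofReal (16 * Q) * ENNReal.ofReal (rr (n i) * K (n i) ^ 2) :=
          ENNReal.tsum_le_tsum h1
      _ = ENNReal.ofReal (16 * Q) * ∑' i : ι, ENNReal.ofReal (rr (n i) * K (n i) ^ 2) :=
          ENNReal.tsum_mul_left
      _ ≤ ENNReal.ofReal (16 * Q) * ENNReal.ofReal δ := mul_le_mul_right hsum _
      _ = ENNReal.ofReal (16 * Q * δ) := (ENNReal.ofReal_mul (by positivity)).symm
      _ ≤ ENNReal.ofReal ε := by
          apply ENNReal.ofReal_le_ofReal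
          have h2 : δ ≤ ε / (16 * (Q + 1)) := by rw [hδ]; exact min_le_right _ _
          calc 16 * Q * δ ≤ 16 * (Q + 1) * (ε / (16 * (Q + 1))) := by
                apply mul_le_mul _ h2 hδ0.le (by positivity)
                linarith
            _ = ε := by field_simp
  · intro w hw _ _
    obtain ⟨i, hi⟩ := mem_iUnion.1 (hcov hw)
    have hne : (S ∩ Cy (n i) (z i)).Nonempty := ⟨w, hw, hi⟩
    refine ⟨⟨i, hne⟩, ?_⟩
    have h1 := hne.some_mem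
    have h3 := hn i
    obtain ⟨j, hj⟩ : ∃ j, n i = j + 1 := ⟨n i - 1, by omega⟩
    have h4 : n i - 4 + 3 = j := by omega
    show w ∈ Cy (n i - 4 + 3) hne.some
    rw [h4]
    have h5 : hne.some ∈ Cy (j + 1) (z i) := by
      rw [← hj]
      exact h1.2
    exact cy_recenter h5 (by rw [← hj]; exact hi)
  · intro i
    have h3 := hn i.1
    exact hb _ i.2.some_mem.1 _ (by omega)

/-- The covers of a null set of points at which the dissipation is `O(r K)`. -/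
theorem cov_null (h9 : S_Q9) (hD1 : S_D1) {T E D : ℝ} {G : Set ℝ} {u : ℝ → V → V}
    {p : ℝ → V → ℝ} (hN : Turb 1 T E D G u p) {K : ℕ → ℝ} (hK1 : ∀ i, 1 ≤ K i)
    (hKm : Monotone K) {S : Set (ℝ × V)} (hS : CN (fun i => K i ^ 2) S)
    (hG : ∀ z ∈ S, z.1 ∈ Ioo 0 T → SingPt G u z.1 z.2 → ∃ M, GrG G u K M z) {ε : ℝ}
    (hε : 0 < ε) : Cov T G u p S ε := by
  obtain ⟨R, hR⟩ : ∃ R : ℕ → Set (ℝ × V), R = fun N : ℕ =>
    {z | z ∈ S ∧ ∀ i ≥ N, Small T G u p (Cy (i + 3) z) (N * (rr i * K i ^ 2))} := ⟨_, rfl⟩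
  have h1 : ∀ N, ∀ ε : ℝ, 0 < ε → Cov T G u p (R N) ε := by
    intro N ε hε
    refine cov_unif hK1 hKm (k₀ := N) (Q := N) ?_ (Nat.cast_nonneg N) ?_ hε
    · intro ε hε
      obtain ⟨ι, hι, n, z, hc, hs⟩ := hS ε hε
      refine ⟨ι, hι, n, z, fun w hw => hc ?_, hs⟩
      rw [hR] at hw
      exact hw.1
    · intro z hz
      rw [hR] at hz
      exact hz.2
  obtain ⟨ι, hι, U, c, hU, hc0, hcs, hcv, hcl⟩ := cov_iUnion h1 hε
  refine ⟨ι, hι, U, c, hU, hc0, hcs, fun z hz ht hs => hcv z ?_ ht hs, hcl⟩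
  obtain ⟨M, hM⟩ := hG z hz ht hs
  obtain ⟨k₀, hk3, hk⟩ := ex_level (isCompact_singleton (x := z)) (T := T) (by
    rw [singleton_subset_iff]
    exact ⟨ht, mem_univ _⟩)
  obtain ⟨Q, hQ⟩ := point_bound h9 hD1 hN hK1 hKm hk3 (hk z rfl).1 (hk z rfl).2 hs hM
  obtain ⟨N, hNQ⟩ := exists_nat_ge Q
  rw [mem_iUnion]
  refine ⟨max k₀ N, ?_⟩
  rw [hR]
  refine ⟨hz, fun i hi ψ hψ hψ0 hψ1 hψs => ?_⟩
  refine (hQ i ((le_max_left _ _).trans hi) ψ hψ hψ0 hψ1 hψs).trans ?_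
  have h2 : Q ≤ ((max k₀ N : ℕ) : ℝ) := hNQ.trans (by exact_mod_cast le_max_right _ _)
  have h3 := rr0 i
  gcongr

/-- From covers to the concentration of the defect. -/
theorem conc_of_cov {T E D : ℝ} {G : Set ℝ} {u : ℝ → V → V}
    {p : ℝ → V → ℝ} (hN : Turb 1 T E D G u p) {S : Set (ℝ × V)} {ε : ℝ} (hε : 0 < ε)
    (h : Cov T G u p S ε) :
    ∃ U : Set (ℝ × V), IsOpen U ∧
      (∀ z : ℝ × V, z.1 ∈ Ioo 0 T → (SingPt G u z.1 z.2 → z ∈ S) → z ∈ U) ∧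
      Small T G u p U ε := by
  classical
  obtain ⟨ι, hι, U, c, hU, hc0, hcs, hcv, hcl⟩ := h
  refine ⟨(⋃ i, U i) ∪ {z : ℝ × V | SingPt G u z.1 z.2}ᶜ,
    (isOpen_iUnion hU).union (EC.sing_closed G u).isOpen_compl, ?_, ?_⟩
  · intro z ht hx
    by_cases hs : SingPt G u z.1 z.2
    · left
      obtain ⟨i, hi⟩ := hcv z (hx hs) ht hs
      exact mem_iUnion.2 ⟨i, hi⟩
    · right
      exact hs
  · intro ψ hψ hψ0 hψ1 hψs
    obtain ⟨S', hS'⟩ : ∃ S' : Set (ℝ × V), S' = tsupport (fun z : ℝ × V => ψ z.1 z.2) ∩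
      {z : ℝ × V | SingPt G u z.1 z.2} := ⟨_, rfl⟩
    have hScpt : IsCompact S' := by
      rw [hS']
      exact hψ.cpt.isCompact.inter_right (EC.sing_closed G u)
    obtain ⟨t, ht⟩ := hScpt.elim_finite_subcover U hU (by
      intro z hz
      rw [hS'] at hz
      rcases hψs hz.1 with h | h
      · exact h
      · exact absurd hz.2 h)
    have h1 := EC.ind t_L0 (t_E3 t_E3a) hN U c hU hcl t ψ hψ hψ0 hψ1 (by
        intro z hz hzs
        have h2 : z ∈ S' := by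
          rw [hS']
          exact ⟨hz, hzs⟩
        obtain ⟨i, hi, hzi⟩ := mem_iUnion₂.mp (ht h2)
        exact ⟨i, hi, hzi⟩)
    refine h1.trans ?_
    have h4 : ENNReal.ofReal (∑ i ∈ t, c i) ≤ ENNReal.ofReal ε := by
      rw [ENNReal.ofReal_sum_of_nonneg fun i _ => hc0 i]
      exact (ENNReal.sum_le_tsum t).trans hcs
    exact (ENNReal.ofReal_le_ofReal_iff hε.le).mp h4

end Pool.Agent.Helper30E
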