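import Pool.Agent.TH301.EQ.NullImage

/-!
The image of a set of Hausdorff measure zero, for a function whose increments between points of a
set are bounded by the integral of an integrable function and a power of the distance.
-/

set_option autoImplicit false

open MeasureTheory Set Filter Topology
open scoped ENNReal NNReal

namespace Pool.Agent.Helper30E

/-- A set of Hausdorff measure zero is covered by intervals with a small sum. -/
theorem cover_of_null {κ : ℝ} (h0 : 0 < κ) {B : Set ℝ} (hB : μH[κ] B = 0) {ε : ℝ} (hε : 0 < ε) :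
    ∃ (a r : ℕ → ℝ), (∀ n, 0 < r n) ∧ B ⊆ ⋃ n, Metric.ball (a n) (r n) ∧
      ∑' n, ENNReal.ofReal ((2 * r n) ^ κ) ≤ ENNReal.ofReal ε := by
  classical
  set e : ℝ := ε / (2 * 4 ^ κ) with he
  have h4 : (0 : ℝ) < 4 ^ κ := Real.rpow_pos_of_pos (by norm_num) _
  have he0 : 0 < e := by positivity
  have hE : ENNReal.ofReal e ≠ 0 := (ENNReal.ofReal_pos.2 he0).ne'
  obtain ⟨ρ', hρ', hρs⟩ := ENNReal.exists_pos_sum_of_countable hE ℕ
  -- the cover
  have h1 : (⨅ (t : ℕ → Set ℝ) (_ : B ⊆ ⋃ n, t n) (_ : ∀ n, Metric.ediam (t n) ≤ 1),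
      ∑' n, ⨆ _ : (t n).Nonempty, Metric.ediam (t n) ^ κ) < ENNReal.ofReal e := by
    have h2 : (⨅ (t : ℕ → Set ℝ) (_ : B ⊆ ⋃ n, t n) (_ : ∀ n, Metric.ediam (t n) ≤ 1),
      ∑' n, ⨆ _ : (t n).Nonempty, Metric.ediam (t n) ^ κ) ≤ μH[κ] B := by
      rw [MeasureTheory.Measure.hausdorffMeasure_apply]
      exact le_iSup₂_of_le (1 : ℝ≥0∞) one_pos le_rfl
    rw [hB] at h2
    exact h2.trans_lt (ENNReal.ofReal_pos.2 he0)
  simp only [iInf_lt_iff] at h1
  obtain ⟨t, ht, hd, hs⟩ := h1
  set a : ℕ → ℝ := fun n => if h : (t n).Nonempty then h.some else 0 with ha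
  set d : ℕ → ℝ := fun n => if (t n).Nonempty then (Metric.ediam (t n)).toReal else 0 with hdd
  set ρ : ℕ → ℝ := fun n => (ρ' n : ℝ) ^ (1 / κ) with hρ
  have hd0 : ∀ n, 0 ≤ d n := fun n => by
    simp only [hdd]
    split_ifs
    · exact ENNReal.toReal_nonneg
    · exact le_rfl
  have hρ0 : ∀ n, 0 < ρ n := fun n => Real.rpow_pos_of_pos (NNReal.coe_pos.2 (hρ' n)) _
  have hρκ : ∀ n, ρ n ^ κ = ρ' n := fun n => by
    simp only [hρ]
    rw [← Real.rpow_mul (NNReal.coe_nonneg _), one_div_mul_cancel h0.ne', Real.rpow_one]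
  refine ⟨a, fun n => d n + ρ n, fun n => add_pos_of_nonneg_of_pos (hd0 n) (hρ0 n), ?_, ?_⟩
  · intro x hx
    obtain ⟨n, hn⟩ := mem_iUnion.1 (ht hx)
    refine mem_iUnion.2 ⟨n, ?_⟩
    have hne : (t n).Nonempty := ⟨x, hn⟩
    have e1 : a n = hne.some := by simp only [ha]; rw [dif_pos hne]
    have e2 : d n = (Metric.ediam (t n)).toReal := by simp only [hdd]; rw [if_pos hne]
    rw [Metric.mem_ball, e1]
    change dist x hne.some < d n + ρ n
    rw [e2]
    have h3 : edist x hne.some ≤ Metric.ediam (t n) := Metric.edist_le_ediam_of_mem hn hne.some_mem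
    have h4 : dist x hne.some ≤ (Metric.ediam (t n)).toReal := by
      rw [edist_dist] at h3
      exact (ENNReal.ofReal_le_iff_le_toReal
        (ne_top_of_le_ne_top ENNReal.one_ne_top (hd n))).1 h3
    linarith [hρ0 n]
  · have h5 : ∀ n, ENNReal.ofReal ((2 * (d n + ρ n)) ^ κ)
        ≤ ENNReal.ofReal (4 ^ κ) * ((⨆ _ : (t n).Nonempty, Metric.ediam (t n) ^ κ) + ρ' n) := by
      intro n
      have k1 : (2 * (d n + ρ n)) ^ κ ≤ 4 ^ κ * (d n ^ κ + ρ n ^ κ) := by
        have k2 : 2 * (d n + ρ n) ≤ 4 * max (d n) (ρ n) := by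
          have := le_max_left (d n) (ρ n)
          have := le_max_right (d n) (ρ n)
          linarith
        have hm0 : 0 ≤ max (d n) (ρ n) := (hd0 n).trans (le_max_left _ _)
        have k3 : (2 * (d n + ρ n)) ^ κ ≤ (4 * max (d n) (ρ n)) ^ κ :=
          Real.rpow_le_rpow (mul_nonneg (by norm_num) (add_nonneg (hd0 n) (hρ0 n).le)) k2 h0.le
        have k4 : max (d n) (ρ n) ^ κ ≤ d n ^ κ + ρ n ^ κ := by
          have p1 : 0 ≤ d n ^ κ := Real.rpow_nonneg (hd0 n) _
          have p2 : 0 ≤ ρ n ^ κ := Real.rpow_nonneg (hρ0 n).le _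
          rcases le_total (d n) (ρ n) with h | h
          · rw [max_eq_right h]; linarith
          · rw [max_eq_left h]; linarith
        rw [Real.mul_rpow (by norm_num) hm0] at k3
        exact k3.trans (mul_le_mul_of_nonneg_left k4 h4.le)
      refine (ENNReal.ofReal_le_ofReal k1).trans ?_
      rw [ENNReal.ofReal_mul h4.le]
      refine mul_le_mul_right ?_ _
      rw [ENNReal.ofReal_add (Real.rpow_nonneg (hd0 n) _) (Real.rpow_nonneg (hρ0 n).le _), hρκ]
      refine add_le_add ?_ (ENNReal.ofReal_coe_nnreal).le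
      by_cases hne : (t n).Nonempty
      · have e2 : d n = (Metric.ediam (t n)).toReal := by simp only [hdd]; rw [if_pos hne]
        rw [iSup_pos hne, e2, ← ENNReal.ofReal_rpow_of_nonneg ENNReal.toReal_nonneg h0.le,
          ENNReal.ofReal_toReal (ne_top_of_le_ne_top ENNReal.one_ne_top (hd n))]
      · have e2 : d n = 0 := by simp only [hdd]; rw [if_neg hne]
        rw [e2, Real.zero_rpow h0.ne', ENNReal.ofReal_zero]
        exact zero_le
    refine (ENNReal.tsum_le_tsum h5).trans ?_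
    rw [ENNReal.tsum_mul_left, ENNReal.tsum_add]
    refine (mul_le_mul_right (add_le_add hs.le hρs.le) _).trans ?_
    rw [← ENNReal.ofReal_add he0.le he0.le, ← ENNReal.ofReal_mul h4.le]
    refine ENNReal.ofReal_le_ofReal (le_of_eq ?_)
    rw [he]
    field_simp
    ring

/-- `(∑ b)^κ ≤ ∑ b^κ` -/
theorem tsum_rpow_le {ι : Type*} {b : ι → ℝ≥0∞} {κ : ℝ} (h0 : 0 < κ) (h1 : κ ≤ 1)
    (hb : ∑' i, b i ≠ ∞) : (∑' i, b i) ^ κ ≤ ∑' i, b i ^ κ := by
  set L := ∑' i, b i with hL
  rcases eq_or_ne L 0 with h | h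
  · rw [h, ENNReal.zero_rpow_of_pos h0]
    exact zero_le
  · have k1 : ∀ i, b i ≤ b i ^ κ * L ^ (1 - κ) := by
      intro i
      have k2 : b i ^ (1 - κ) ≤ L ^ (1 - κ) :=
        ENNReal.rpow_le_rpow (ENNReal.le_tsum i) (by linarith)
      calc b i = b i ^ (κ + (1 - κ)) := by
            rw [add_sub_cancel, ENNReal.rpow_one]
        _ = b i ^ κ * b i ^ (1 - κ) := ENNReal.rpow_add_of_nonneg _ _ h0.le (by linarith)
        _ ≤ _ := mul_le_mul_right k2 _
    have k3 : L ≤ (∑' i, b i ^ κ) * L ^ (1 - κ) := by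
      calc L = ∑' i, b i := hL
        _ ≤ ∑' i, b i ^ κ * L ^ (1 - κ) := ENNReal.tsum_le_tsum k1
        _ = _ := ENNReal.tsum_mul_right
    have k4 : L = L ^ κ * L ^ (1 - κ) := by
      rw [← ENNReal.rpow_add_of_nonneg _ _ h0.le (by linarith), add_sub_cancel, ENNReal.rpow_one]
    have p1 : L ^ (1 - κ) ≠ 0 := (ENNReal.rpow_pos (pos_iff_ne_zero.2 h) hb).ne'
    have p2 : L ^ (1 - κ) ≠ ∞ := ENNReal.rpow_ne_top_of_nonneg (by linarith) hb
    have k5 : L ^ κ * L ^ (1 - κ) ≤ (∑' i, b i ^ κ) * L ^ (1 - κ) := k4 ▸ k3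
    exact (ENNReal.mul_le_mul_iff_left p1 p2).1 k5

open Pool.Agent.TH340.FF in
/-- **Sard.** The image of a set of `κ`-dimensional Hausdorff measure zero under a function whose
increments are bounded by the integral of an integrable function and a multiple of the `κ`-th power
of the distance, is a null set. -/
theorem image_null_holder {T C κ : ℝ} {D ψ : ℝ → ℝ} {F B : Set ℝ} (hT : 0 ≤ T) (hκ : 0 < κ)
    (hκ1 : κ ≤ 1) (hC : 0 ≤ C) (hψ0 : ∀ t, 0 ≤ ψ t) (hψi : IntervalIntegrable ψ volume 0 T)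
    (hb : ∀ s ∈ F, ∀ t ∈ F, 0 ≤ s → s ≤ t → t ≤ T →
      |D t - D s| ≤ (∫ r in s..t, ψ r) + C * (t - s) ^ κ)
    (hF : F ⊆ Icc 0 T) (hBF : B ⊆ F) (hB : μH[κ] B = 0) : volume (D '' B) = 0 := by
  classical
  set φ : ℝ → ℝ := (Ioc 0 T).indicator ψ with hφ
  have hφi : Integrable φ := by
    rw [hφ, integrable_indicator_iff measurableSet_Ioc]
    rwa [intervalIntegrable_iff_integrableOn_Ioc_of_le hT] at hψi
  have hφ0 : ∀ t, 0 ≤ φ t := fun t => indicator_nonneg (fun x _ => hψ0 x) t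
  have hfin : ∫⁻ x, ENNReal.ofReal (φ x) ≠ ∞ := by
    rw [← ofReal_integral_eq_lintegral_ofReal hφi (Eventually.of_forall hφ0)]
    exact ENNReal.ofReal_ne_top
  set ν1 : Measure ℝ := volume.withDensity (fun r => ENNReal.ofReal (φ r)) with hν1
  refine le_antisymm (ENNReal.le_of_forall_pos_le_add fun ε' hε' _ => ?_) zero_le
  rw [zero_add]
  set ε : ℝ := (ε' : ℝ) / (1 + C) with hε
  have hε0 : 0 < ε := div_pos (NNReal.coe_pos.2 hε') (by linarith)
  obtain ⟨δ, hδ, hδ2⟩ := exists_pos_setLIntegral_lt_of_measure_lt hfin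
    (ENNReal.ofReal_pos.2 hε0).ne'
  -- the small number
  obtain ⟨η, hη0, hη1, hηε, hηδ⟩ : ∃ η : ℝ, 0 < η ∧ η ≤ 1 ∧ η ≤ ε ∧ ENNReal.ofReal η < δ := by
    obtain ⟨q, hq0, hq⟩ := ENNReal.lt_iff_exists_nnreal_btwn.1 hδ
    have hq0' : (0 : ℝ) < q := by
      rw [ENNReal.coe_pos] at hq0
      exact NNReal.coe_pos.2 hq0
    refine ⟨min (q : ℝ) (min 1 ε), lt_min hq0' (lt_min one_pos hε0),
      (min_le_right _ _).trans (min_le_left _ _), (min_le_right _ _).trans (min_le_right _ _), ?_⟩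
    refine lt_of_le_of_lt (ENNReal.ofReal_le_ofReal (min_le_left _ _)) ?_
    rwa [ENNReal.ofReal_coe_nnreal]
  obtain ⟨a, r, hr, hcov, hsum⟩ := cover_of_null hκ hB hη0
  have hr1 : ∀ n, (2 * r n) ^ κ ≤ 1 := fun n => by
    have h1 := (ENNReal.le_tsum (f := fun n => ENNReal.ofReal ((2 * r n) ^ κ)) n).trans hsum
    exact ((ENNReal.ofReal_le_ofReal_iff hη0.le).1 h1).trans hη1
  have hr2 : ∀ n, 2 * r n ≤ 1 := fun n => by
    by_contra hcon
    push Not at hcon
    exact absurd (hr1 n) (not_le.2 (Real.one_lt_rpow hcon hκ))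
  have hr3 : ∀ n, 2 * r n ≤ (2 * r n) ^ κ := fun n => by
    have := Real.rpow_le_rpow_of_exponent_ge (mul_pos two_pos (hr n)) (hr2 n) hκ1
    rwa [Real.rpow_one] at this
  set U : Set ℝ := ⋃ n, Metric.ball (a n) (r n) with hU
  have hUo : IsOpen U := isOpen_iUnion fun n => Metric.isOpen_ball
  have hlen : ∑' n, ENNReal.ofReal (2 * r n) ≤ ENNReal.ofReal η :=
    (ENNReal.tsum_le_tsum fun n => ENNReal.ofReal_le_ofReal (hr3 n)).trans hsum
  have hvolU : volume U < δ := by
    refine lt_of_le_of_lt ?_ hηδ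
    refine (measure_iUnion_le _).trans (le_trans (ENNReal.tsum_le_tsum fun n => ?_) hlen)
    rw [Real.volume_ball]
  have hνU : ν1 U < ENNReal.ofReal ε := by
    rw [hν1, withDensity_apply _ hUo.measurableSet]
    exact hδ2 U hvolU
  -- the atoms
  set Λ : Measure ℝ := Measure.sum (fun n => ENNReal.ofReal ((2 * r n) ^ κ) • Measure.dirac (a n))
    with hΛ
  have hΛa : ∀ S : Set ℝ, MeasurableSet S → Λ S
      = ∑' n, ENNReal.ofReal ((2 * r n) ^ κ) * S.indicator 1 (a n) := by
    intro S hS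
    rw [hΛ, Measure.sum_apply _ hS]
    refine tsum_congr fun n => ?_
    rw [Measure.smul_apply, Measure.dirac_apply' _ hS, smul_eq_mul]
  have hΛU : ∀ S : Set ℝ, MeasurableSet S → Λ S ≤ ENNReal.ofReal ε := by
    intro S hS
    rw [hΛa S hS]
    refine le_trans (ENNReal.tsum_le_tsum fun n => ?_)
      (hsum.trans (ENNReal.ofReal_le_ofReal hηε))
    refine (mul_le_mul_right (?_ : S.indicator (1 : ℝ → ℝ≥0∞) (a n) ≤ 1) _).trans (mul_one _).le
    exact indicator_le_self' (fun _ _ => zero_le) _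
  -- the components
  set comp : ℝ → Set ℝ := fun x => connectedComponentIn U x with hcomp
  have haU : ∀ n, a n ∈ U := fun n => mem_iUnion.2 ⟨n, Metric.mem_ball_self (hr n)⟩
  have hball : ∀ n x, x ∈ Metric.ball (a n) (r n) → Metric.ball (a n) (r n) ⊆ comp x := by
    intro n x hx
    exact (convex_ball _ _).isPreconnected.subset_connectedComponentIn hx
      (subset_iUnion (fun n => Metric.ball (a n) (r n)) n)
  have hcopen : ∀ x, IsOpen (comp x) := fun x => hUo.connectedComponentIn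
  set 𝒞 : Set (Set ℝ) := range fun n => comp (a n) with h𝒞
  have h𝒞c : 𝒞.Countable := countable_range _
  have h𝒞d : 𝒞.PairwiseDisjoint id := by
    rintro _ ⟨n, rfl⟩ _ ⟨m, rfl⟩ hne
    rw [Function.onFun, id, id, Set.disjoint_left]
    intro x h1 h2
    exact hne ((connectedComponentIn_eq h1).trans (connectedComponentIn_eq h2).symm)
  -- the length of a component
  have hlenC : ∀ x s t, s ∈ comp x → t ∈ comp x → s ≤ t →
      ENNReal.ofReal ((t - s) ^ κ) ≤ Λ (comp x) := by
    intro x s t hs ht hst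
    have hoc : (comp x).OrdConnected := isPreconnected_connectedComponentIn.ordConnected
    have h1 : Icc s t ⊆ ⋃ n, (if a n ∈ comp x then Metric.ball (a n) (r n) else ∅) := by
      intro y hy
      have hy1 : y ∈ comp x := hoc.out hs ht hy
      obtain ⟨n, hn⟩ := mem_iUnion.1 (connectedComponentIn_subset _ _ hy1)
      refine mem_iUnion.2 ⟨n, ?_⟩
      have hy2 : a n ∈ comp x := by
        have h2 := hball n y hn (Metric.mem_ball_self (hr n))
        have h3 : comp x = comp y := connectedComponentIn_eq hy1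
        rw [h3]
        exact h2
      rw [if_pos hy2]
      exact hn
    have h2 : ENNReal.ofReal (t - s)
        ≤ ∑' n, ENNReal.ofReal (2 * r n) * (comp x).indicator 1 (a n) := by
      rw [← Real.volume_Icc]
      refine (measure_mono h1).trans ((measure_iUnion_le _).trans (ENNReal.tsum_le_tsum fun n => ?_))
      by_cases h : a n ∈ comp x
      · rw [if_pos h, indicator_of_mem h, Real.volume_ball, Pi.one_apply, mul_one]
      · rw [if_neg h, measure_empty]
        exact zero_le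
    have h3 : ∑' n, ENNReal.ofReal (2 * r n) * (comp x).indicator 1 (a n) ≠ ∞ := by
      refine ne_top_of_le_ne_top ENNReal.ofReal_ne_top
        (le_trans (ENNReal.tsum_le_tsum fun n => ?_) hlen)
      refine (mul_le_mul_right (?_ : (comp x).indicator (1 : ℝ → ℝ≥0∞) (a n) ≤ 1) _).trans
        (mul_one _).le
      exact indicator_le_self' (fun _ _ => zero_le) _
    rw [hΛa _ (hcopen x).measurableSet,
      ← ENNReal.ofReal_rpow_of_nonneg (sub_nonneg.2 hst) hκ.le]
    refine (ENNReal.rpow_le_rpow h2 hκ.le).trans ((tsum_rpow_le hκ hκ1 h3).trans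
      (ENNReal.tsum_le_tsum fun n => ?_))
    rw [ENNReal.mul_rpow_of_nonneg _ _ hκ.le,
      ENNReal.ofReal_rpow_of_nonneg (mul_nonneg two_pos.le (hr n).le) hκ.le]
    refine mul_le_mul_right ?_ _
    by_cases h : a n ∈ comp x
    · rw [indicator_of_mem h, Pi.one_apply, ENNReal.one_rpow]
    · rw [indicator_of_notMem h, ENNReal.zero_rpow_of_pos hκ]
  -- the image of the part in a component
  have hpart : ∀ S ∈ 𝒞, volume (D '' (B ∩ S)) ≤ (ν1 + ENNReal.ofReal C • Λ) S := by
    rintro _ ⟨m, rfl⟩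
    set x := a m with hx
    refine (Real.volume_le_diam _).trans ?_
    rw [Metric.ediam_image_le_iff]
    have key : ∀ s ∈ B ∩ comp x, ∀ t ∈ B ∩ comp x, s ≤ t →
        edist (D s) (D t) ≤ (ν1 + ENNReal.ofReal C • Λ) (comp x) := by
      intro s hs t ht hst
      have hs0 := hF (hBF hs.1)
      have ht0 := hF (hBF ht.1)
      have hoc : (comp x).OrdConnected := isPreconnected_connectedComponentIn.ordConnected
      rw [edist_dist, Real.dist_eq, abs_sub_comm]
      have h1 := hb s (hBF hs.1) t (hBF ht.1) hs0.1 hst ht0.2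
      have hp : 0 ≤ (t - s) ^ κ := Real.rpow_nonneg (sub_nonneg.2 hst) _
      have hi0 : 0 ≤ ∫ r in s..t, ψ r := intervalIntegral.integral_nonneg hst fun r _ => hψ0 r
      refine (ENNReal.ofReal_le_ofReal h1).trans ?_
      rw [ENNReal.ofReal_add hi0 (mul_nonneg hC hp), ENNReal.ofReal_mul hC, Measure.add_apply,
        Measure.smul_apply, smul_eq_mul]
      refine add_le_add ?_ (mul_le_mul_right (hlenC x s t hs.2 ht.2 hst) _)
      have e1 : ∫ r in s..t, ψ r = ∫ r in Ioc s t, φ r := by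
        rw [intervalIntegral.integral_of_le hst]
        refine setIntegral_congr_fun measurableSet_Ioc fun r hr => ?_
        rw [hφ, indicator_of_mem]
        exact ⟨hs0.1.trans_lt hr.1, hr.2.trans ht0.2⟩
      rw [e1, ofReal_integral_eq_lintegral_ofReal hφi.integrableOn (Eventually.of_forall hφ0),
        ← withDensity_apply _ measurableSet_Ioc]
      exact measure_mono (Ioc_subset_Icc_self.trans (hoc.out hs.2 ht.2))
    intro s hs t ht
    rcases le_total s t with h | h
    · exact key s hs t ht h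
    · rw [edist_comm]
      exact key t ht s hs h
  -- the sum
  have hBU : B ⊆ ⋃ S ∈ 𝒞, B ∩ S := by
    intro y hy
    obtain ⟨n, hn⟩ := mem_iUnion.1 (hcov hy)
    refine mem_iUnion₂.2 ⟨comp (a n), ⟨n, rfl⟩, hy, ?_⟩
    exact hball n (a n) (Metric.mem_ball_self (hr n)) hn
  calc volume (D '' B) ≤ volume (⋃ S ∈ 𝒞, D '' (B ∩ S)) := by
        refine measure_mono ?_
        rw [← image_iUnion₂]
        exact image_mono hBU
    _ ≤ ∑' S : 𝒞, volume (D '' (B ∩ S)) := measure_biUnion_le _ h𝒞c _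
    _ ≤ ∑' S : 𝒞, (ν1 + ENNReal.ofReal C • Λ) S := ENNReal.tsum_le_tsum fun S => hpart S S.2
    _ = (ν1 + ENNReal.ofReal C • Λ) (⋃ S ∈ 𝒞, id S) := by
        refine (measure_biUnion h𝒞c h𝒞d ?_).symm
        rintro _ ⟨n, rfl⟩
        exact (hcopen _).measurableSet
    _ ≤ ENNReal.ofReal ε + ENNReal.ofReal C * ENNReal.ofReal ε := by
        rw [Measure.add_apply, Measure.smul_apply, smul_eq_mul]
        have hm : MeasurableSet (⋃ S ∈ 𝒞, id S) := by
          refine MeasurableSet.biUnion h𝒞c ?_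
          rintro _ ⟨n, rfl⟩
          exact (hcopen _).measurableSet
        refine add_le_add ((measure_mono ?_).trans hνU.le) (mul_le_mul_right (hΛU _ hm) _)
        refine iUnion₂_subset ?_
        rintro _ ⟨n, rfl⟩
        exact connectedComponentIn_subset _ _
    _ = ε' := by
        rw [← ENNReal.ofReal_mul hC, ← ENNReal.ofReal_add hε0.le (mul_nonneg hC hε0.le)]
        have e2 : ε + C * ε = ε' := by
          rw [hε]
          field_simp
        rw [e2, ENNReal.ofReal_coe_nnreal]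

end Pool.Agent.Helper30E
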