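import Pool.Agent.TH301.EQ.PubGood
import Pool.Agent.Helper30E.T1

/-!
Times at which the dissipation grows with a power, and sets of Hausdorff measure zero.
-/

set_option autoImplicit false
set_option linter.unusedSectionVars false

open MeasureTheory Set Filter Topology
open scoped InnerProductSpace ENNReal ContDiff NNReal

namespace Pool.Agent.Helper30E

open H772R2.NS Pool.Agent.TH340.FF Pool.Agent.TH301.EQ

/-! ### the weights -/

theorem wp_ii {κ : ℝ} (hκ : 0 < κ) (t a b : ℝ) :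
    IntervalIntegrable (fun τ => |τ - t| ^ (κ - 1)) volume a b := by
  have key : ∀ b, IntervalIntegrable (fun τ => |τ - t| ^ (κ - 1)) volume t b := by
    intro b
    rcases le_total t b with h | h
    · have h1 := (intervalIntegral.intervalIntegrable_rpow' (r := κ - 1) (a := 0) (b := b - t)
        (by linarith)).comp_sub_right t
      rw [zero_add, sub_add_cancel] at h1
      refine h1.congr fun x hx => ?_
      rw [uIoc_of_le h] at hx
      change (x - t) ^ (κ - 1) = |x - t| ^ (κ - 1)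
      rw [abs_of_pos (by linarith [hx.1])]
    · have h1 := (intervalIntegral.intervalIntegrable_rpow' (r := κ - 1) (a := 0) (b := t - b)
        (by linarith)).comp_sub_left t
      rw [sub_zero, sub_sub_cancel] at h1
      refine h1.congr fun x hx => ?_
      rw [uIoc_of_ge h] at hx
      change (t - x) ^ (κ - 1) = |x - t| ^ (κ - 1)
      rw [abs_sub_comm, abs_of_nonneg (by linarith [hx.2])]
  exact (key a).symm.trans (key b)

theorem wp_left {κ : ℝ} (hκ : 0 < κ) {s t : ℝ} (hst : s ≤ t) :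
    ∫ τ in s..t, |τ - s| ^ (κ - 1) = (t - s) ^ κ / κ := by
  have h1 : ∫ τ in s..t, |τ - s| ^ (κ - 1) = ∫ τ in s..t, (fun x => x ^ (κ - 1)) (τ - s) := by
    refine intervalIntegral.integral_congr fun x hx => ?_
    rw [uIcc_of_le hst] at hx
    change |x - s| ^ (κ - 1) = (x - s) ^ (κ - 1)
    rw [abs_of_nonneg (by linarith [hx.1])]
  rw [h1, intervalIntegral.integral_comp_sub_right (fun x : ℝ => x ^ (κ - 1)) s, sub_self,
    integral_rpow (Or.inl (by linarith)), sub_add_cancel, Real.zero_rpow hκ.ne', sub_zero]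

theorem wp_right {κ : ℝ} (hκ : 0 < κ) {s t : ℝ} (hst : s ≤ t) :
    ∫ τ in s..t, |τ - t| ^ (κ - 1) = (t - s) ^ κ / κ := by
  have h1 : ∫ τ in s..t, |τ - t| ^ (κ - 1) = ∫ τ in s..t, (fun x => x ^ (κ - 1)) (t - τ) := by
    refine intervalIntegral.integral_congr fun x hx => ?_
    rw [uIcc_of_le hst] at hx
    change |x - t| ^ (κ - 1) = (t - x) ^ (κ - 1)
    rw [abs_sub_comm, abs_of_nonneg (by linarith [hx.2])]
  rw [h1, intervalIntegral.integral_comp_sub_left (fun x : ℝ => x ^ (κ - 1)) t, sub_self,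
    integral_rpow (Or.inl (by linarith)), sub_add_cancel, Real.zero_rpow hκ.ne', sub_zero]

theorem wp_lower {κ : ℝ} (hκ : 0 < κ) (hκ1 : κ ≤ 1) {t x y : ℝ} (hxy : x < y)
    (h1 : 2 * x - y < t) (h2 : t < 2 * y - x) :
    (y - x) ^ κ ≤ 2 * ∫ τ in x..y, |τ - t| ^ (κ - 1) := by
  have hyx : 0 < y - x := by linarith
  have k1 : ∫ _ in x..y, (2 * (y - x)) ^ (κ - 1) ≤ ∫ τ in x..y, |τ - t| ^ (κ - 1) := by
    have hne : ∀ᵐ τ : ℝ, τ ≠ t := by simp [ae_iff, measure_singleton]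
    refine intervalIntegral.integral_mono_ae_restrict hxy.le intervalIntegrable_const
      (wp_ii hκ t x y) ?_
    rw [Filter.EventuallyLE, ae_restrict_iff' measurableSet_Icc]
    filter_upwards [hne] with τ hτ hτI
    have h3 : 0 < |τ - t| := abs_pos.2 (sub_ne_zero.2 hτ)
    have h4 : |τ - t| ≤ 2 * (y - x) := by
      rw [abs_le]
      constructor <;> linarith [hτI.1, hτI.2]
    exact Real.rpow_le_rpow_of_nonpos h3 h4 (by linarith)
  rw [intervalIntegral.integral_const, smul_eq_mul] at k1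
  have k2 : (2 * (y - x)) ^ (κ - 1) = 2 ^ (κ - 1) * (y - x) ^ (κ - 1) :=
    Real.mul_rpow (by norm_num) hyx.le
  have k3 : (1 / 2 : ℝ) ≤ 2 ^ (κ - 1) := by
    have : (2 : ℝ) ^ (-1 : ℝ) ≤ 2 ^ (κ - 1) :=
      Real.rpow_le_rpow_of_exponent_le (by norm_num) (by linarith)
    rwa [Real.rpow_neg_one, ← one_div] at this
  have k4 : (y - x) * (y - x) ^ (κ - 1) = (y - x) ^ κ := by
    rw [mul_comm, ← Real.rpow_add_one hyx.ne', sub_add_cancel]
  have k5 : 0 < (y - x) ^ κ := Real.rpow_pos_of_pos hyx _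
  rw [k2] at k1
  have k6 : (y - x) * (2 ^ (κ - 1) * (y - x) ^ (κ - 1)) = 2 ^ (κ - 1) * (y - x) ^ κ := by
    rw [← k4]; ring
  rw [k6] at k1
  nlinarith

/-! ### the growth at a time -/

/-- The growth of the exponent `(1 + 3 κ) / 5` at the time `t`: `∫_J g ≤ C |J|^{(1+3κ)/5}` for all
short intervals `J ⊆ [0,T]` which contain `t`. -/
def Growth (T : ℝ) (g : ℝ → ℝ) (κ t : ℝ) : Prop :=
  ∃ C δ : ℝ, 0 < δ ∧ ∀ x y, 0 ≤ x → x ≤ t → t ≤ y → y ≤ T → y - x ≤ δ →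
    ∫ τ in x..y, g τ ≤ C * (y - x) ^ ((1 + 3 * κ) / 5)

/-- the times `t` of `[0,T]` such that `(∫_J g)^5 ≤ m |J|^{1+3κ}` for all intervals `J ⊆ [0,T]`
with `t ∈ 3J` -/
def growN (T : ℝ) (g : ℝ → ℝ) (κ : ℝ) (m : ℕ) : Set ℝ :=
  {t | t ∈ Icc 0 T ∧ ∀ x y, 0 ≤ x → x < y → y ≤ T → 2 * x - y < t → t < 2 * y - x →
    (∫ τ in x..y, g τ) ^ 5 ≤ m * (y - x) ^ (1 + 3 * κ)}

theorem growN_closed (T : ℝ) (g : ℝ → ℝ) (κ : ℝ) (m : ℕ) : IsClosed (growN T g κ m) := by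
  refine isClosed_of_closure_subset fun t ht => ?_
  refine ⟨?_, fun x y hx hxy hy h1 h2 => ?_⟩
  · have h1 : t ∈ closure (Icc 0 T) := closure_mono (fun s hs => hs.1) ht
    rwa [isClosed_Icc.closure_eq] at h1
  · rw [mem_closure_iff] at ht
    obtain ⟨b, hb1, hb2⟩ := ht (Ioo (2 * x - y) (2 * y - x)) isOpen_Ioo ⟨h1, h2⟩
    exact hb2.2 x y hx hxy hy hb1.1 hb1.2

theorem mem_growN {T : ℝ} {g : ℝ → ℝ} {κ : ℝ} (hκ : 0 < κ) (hg0 : ∀ t, 0 ≤ g t)
    (hgi : IntervalIntegrable g volume 0 T) {t : ℝ} (ht : t ∈ Icc 0 T)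
    (h : Growth T g κ t) : ∃ m : ℕ, t ∈ growN T g κ m := by
  obtain ⟨C, δ, hδ, h⟩ := h
  set IT := ∫ τ in (0 : ℝ)..T, g τ with hIT
  have he : 0 < 1 + 3 * κ := by linarith
  have hδp : 0 < (δ / 2) ^ (1 + 3 * κ) := Real.rpow_pos_of_pos (by linarith) _
  obtain ⟨m, hm⟩ := exists_nat_ge (max (C ^ 5 * 2 ^ (1 + 3 * κ)) (IT ^ 5 / (δ / 2) ^ (1 + 3 * κ)))
  have m1 : C ^ 5 * 2 ^ (1 + 3 * κ) ≤ m := (le_max_left _ _).trans hm
  have m2 : IT ^ 5 / (δ / 2) ^ (1 + 3 * κ) ≤ m := (le_max_right _ _).trans hm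
  refine ⟨m, ht, fun x y hx hxy hy h1 h2 => ?_⟩
  have hyx : 0 < y - x := by linarith
  have b0 : 0 ≤ ∫ τ in x..y, g τ := intervalIntegral.integral_nonneg hxy.le fun τ _ => hg0 τ
  rcases le_total (y - x) (δ / 2) with h3 | h3
  · have k1 := h (min x t) (max y t) (le_min hx ht.1) (min_le_right _ _) (le_max_right _ _)
      (max_le hy ht.2)
    have k2 : max y t - min x t ≤ 2 * (y - x) := by
      rcases le_total y t with a | a
      · rw [max_eq_right a, min_eq_left (hxy.le.trans a)]; linarith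
      · rw [max_eq_left a]
        rcases le_total x t with b | b
        · rw [min_eq_left b]; linarith
        · rw [min_eq_right b]; linarith
    have k0 : 0 ≤ max y t - min x t := by
      have := le_max_left y t
      have := min_le_left x t
      linarith
    have k3 := k1 (by linarith)
    have k4 : ∫ τ in x..y, g τ ≤ ∫ τ in (min x t)..(max y t), g τ :=
      int_mono_set hgi hg0 (le_min hx ht.1) (min_le_left _ _) hxy.le (le_max_left _ _)
        (max_le hy ht.2)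
    have k5 := pow_le_pow_left₀ b0 (k4.trans k3) 5
    have k6 : (C * (max y t - min x t) ^ ((1 + 3 * κ) / 5)) ^ 5
        = C ^ 5 * (max y t - min x t) ^ (1 + 3 * κ) := by
      rw [mul_pow, ← Real.rpow_natCast ((max y t - min x t) ^ ((1 + 3 * κ) / 5)) 5,
        ← Real.rpow_mul k0]
      congr 2
      push_cast
      ring
    rw [k6] at k5
    have k7 : (max y t - min x t) ^ (1 + 3 * κ) ≤ (2 * (y - x)) ^ (1 + 3 * κ) :=
      Real.rpow_le_rpow k0 k2 he.le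
    have k8 : (2 * (y - x)) ^ (1 + 3 * κ) = 2 ^ (1 + 3 * κ) * (y - x) ^ (1 + 3 * κ) :=
      Real.mul_rpow (by norm_num) hyx.le
    have p1 : 0 ≤ (max y t - min x t) ^ (1 + 3 * κ) := Real.rpow_nonneg k0 _
    have p2 : 0 < (y - x) ^ (1 + 3 * κ) := Real.rpow_pos_of_pos hyx _
    rcases le_total 0 (C ^ 5) with hC | hC
    · calc (∫ τ in x..y, g τ) ^ 5 ≤ C ^ 5 * (max y t - min x t) ^ (1 + 3 * κ) := k5
        _ ≤ C ^ 5 * (2 ^ (1 + 3 * κ) * (y - x) ^ (1 + 3 * κ)) := by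
            rw [← k8]; exact mul_le_mul_of_nonneg_left k7 hC
        _ = (C ^ 5 * 2 ^ (1 + 3 * κ)) * (y - x) ^ (1 + 3 * κ) := by ring
        _ ≤ m * (y - x) ^ (1 + 3 * κ) := mul_le_mul_of_nonneg_right m1 p2.le
    · have : C ^ 5 * (max y t - min x t) ^ (1 + 3 * κ) ≤ 0 := mul_nonpos_of_nonpos_of_nonneg hC p1
      have hm0 : (0 : ℝ) ≤ m * (y - x) ^ (1 + 3 * κ) := mul_nonneg (Nat.cast_nonneg _) p2.le
      linarith
  · have b1 : ∫ τ in x..y, g τ ≤ IT := int_mono_set hgi hg0 le_rfl hx hxy.le hy le_rfl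
    have b2 := pow_le_pow_left₀ b0 b1 5
    have b3 : (δ / 2) ^ (1 + 3 * κ) ≤ (y - x) ^ (1 + 3 * κ) :=
      Real.rpow_le_rpow (by linarith) h3 he.le
    rw [div_le_iff₀ hδp] at m2
    exact b2.trans (m2.trans (mul_le_mul_of_nonneg_left b3 (Nat.cast_nonneg _)))

/-- Growth gives tameness for a weight with a singularity at the time. -/
theorem growN_tame {T : ℝ} {g : ℝ → ℝ} {κ : ℝ} (hκ : 0 < κ) (hκ1 : κ ≤ 1) {m : ℕ} {t : ℝ}
    (ht : t ∈ growN T g κ m) {θ : ℝ → ℝ} (hθi : IntervalIntegrable θ volume 0 T)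
    (hθ : ∀ τ, 2 * (m : ℝ) * |τ - t| ^ (κ - 1) ≤ θ τ) : t ∈ tame T g θ := by
  refine ⟨ht.1, fun x y hx hxy hy h1 h2 => ?_⟩
  refine (ht.2 x y hx hxy hy h1 h2).trans ?_
  have hyx : 0 < y - x := by linarith
  have hm0 : (0 : ℝ) ≤ m := Nat.cast_nonneg m
  have k1 := wp_lower hκ hκ1 hxy h1 h2
  have k2 : 2 * (m : ℝ) * ∫ τ in x..y, |τ - t| ^ (κ - 1) ≤ ∫ τ in x..y, θ τ := by
    rw [← intervalIntegral.integral_const_mul]
    exact intervalIntegral.integral_mono_on hxy.le ((wp_ii hκ t x y).const_mul _)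
      (sub_int hθi hx hxy.le hy) fun τ _ => hθ τ
  have k3 : (m : ℝ) * (y - x) ^ κ ≤ ∫ τ in x..y, θ τ := by
    refine le_trans ?_ k2
    calc (m : ℝ) * (y - x) ^ κ ≤ m * (2 * ∫ τ in x..y, |τ - t| ^ (κ - 1)) :=
          mul_le_mul_of_nonneg_left k1 hm0
      _ = _ := by ring
  have p0 : 0 ≤ (y - x) ^ κ := Real.rpow_nonneg hyx.le _
  have k4 := pow_le_pow_left₀ (mul_nonneg hm0 p0) k3 3
  have k5 : (m : ℝ) ≤ m ^ 3 := by
    rcases Nat.eq_zero_or_pos m with h | h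
    · rw [h]; norm_num
    · have h6 : (1 : ℝ) ≤ m := by exact_mod_cast h
      have h7 : (1 : ℝ) ≤ (m : ℝ) ^ 2 := one_le_pow₀ h6
      nlinarith
  have k6 : (y - x) ^ (1 + 3 * κ) = (y - x) * ((y - x) ^ κ) ^ 3 := by
    rw [Real.rpow_add hyx, Real.rpow_one, mul_comm 3 κ, Real.rpow_mul hyx.le]
    norm_cast
  rw [k6]
  have p3 : 0 ≤ ((y - x) ^ κ) ^ 3 := pow_nonneg p0 3
  calc (m : ℝ) * ((y - x) * ((y - x) ^ κ) ^ 3)
      ≤ m ^ 3 * ((y - x) * ((y - x) ^ κ) ^ 3) :=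
        mul_le_mul_of_nonneg_right k5 (mul_nonneg hyx.le p3)
    _ = (y - x) * (m * (y - x) ^ κ) ^ 3 := by ring
    _ ≤ _ := mul_le_mul_of_nonneg_left k4 hyx.le

end Pool.Agent.Helper30E
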