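import Pool.Agent.Helper30E.T2

/-!
The energy defect and the times of power growth of the dissipation.
-/

set_option autoImplicit false
set_option linter.unusedSectionVars false

open MeasureTheory Set Filter Topology
open scoped InnerProductSpace ENNReal ContDiff NNReal

namespace Pool.Agent.Helper30E

open H772R2.NS Pool.Agent.TH340.FF Pool.Agent.TH301.EQ

/-! ### portions of the rough set -/

/-- If a portion of the rough set is contained in a set on which the increments of `D` are bounded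
by the integral of an integrable function and a power of the distance, and the image of the rough
set is a null set, then the portion is empty. -/
theorem no_portion_holder {T C κ : ℝ} {D ψ : ℝ → ℝ} {F : Set ℝ} (hκ : 0 < κ) (hC : 0 ≤ C)
    (hψ0 : ∀ t, 0 ≤ ψ t) (hψi : IntervalIntegrable ψ volume 0 T)
    (hb : ∀ s ∈ F, ∀ t ∈ F, 0 ≤ s → s ≤ t → t ≤ T →
      |D t - D s| ≤ (∫ r in s..t, ψ r) + C * (t - s) ^ κ)
    (hL : ∀ p ∈ F, p ∈ Icc 0 T → LeftOK D p) (hR : ∀ p ∈ F, p ∈ Icc 0 T → RightOK T D p)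
    (hnull : volume (D '' rough T D) = 0)
    {t₀ δ : ℝ} (ht₀ : t₀ ∈ Icc 0 T) (hδ : 0 < δ)
    (hF : ∀ t ∈ rough T D, |t - t₀| < δ → t ∈ F) : t₀ ∉ rough T D := by
  set a := max 0 (t₀ - δ / 2) with ha
  set b := min T (t₀ + δ / 2) with hb'
  have ha0 : 0 ≤ a := le_max_left _ _
  have hbT : b ≤ T := min_le_left _ _
  have hat : a ≤ t₀ := max_le ht₀.1 (by linarith)
  have htb : t₀ ≤ b := le_min ht₀.2 (by linarith)
  have hab : a ≤ b := hat.trans htb
  have hT : 0 ≤ T := ht₀.1.trans ht₀.2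
  have hnear : ∀ t ∈ Icc a b, |t - t₀| < δ := by
    intro t ht
    have h1 := (le_max_right 0 (t₀ - δ / 2)).trans ht.1
    have h2 := ht.2.trans (min_le_right T (t₀ + δ / 2))
    rw [abs_lt]
    constructor <;> linarith
  -- the value at a point is the value at a rough point to the left, or at `a`
  have hval : ∀ x ∈ Icc a b, ∀ s, a ≤ s → s ≤ x →
      D x = D s ∨ ∃ x' ∈ rough T D ∩ Icc s x, D x = D x' := by
    intro x hx s has hsx
    have hs0 : 0 ≤ s := ha0.trans has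
    have hxT : x ≤ T := hx.2.trans hbT
    have hA : IsCompact (rough T D ∩ Icc s x) := isCompact_Icc.inter_left (rough_closed T D)
    rcases (rough T D ∩ Icc s x).eq_empty_or_nonempty with h0 | h0
    · left
      exact const_of_flat hs0 hsx hxT (fun y hy hy2 => by
        have : y ∈ rough T D ∩ Icc s x := ⟨hy2, hy⟩
        rw [h0] at this
        exact this)
    · right
      have m2 := hA.sSup_mem h0
      set t' := sSup (rough T D ∩ Icc s x) with ht'
      have f2 : t' ∈ F := hF t' m2.1 (hnear t' ⟨has.trans m2.2.1, m2.2.2.trans hx.2⟩)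
      refine ⟨t', m2, ?_⟩
      rcases eq_or_lt_of_le m2.2.2 with h1 | h1
      · rw [← h1]
      refine right_const (hs0.trans m2.2.1) h1 hxT (fun y hy hy2 => ?_) (hR t' f2 m2.1.1)
      have := le_csSup hA.bddAbove (show y ∈ rough T D ∩ Icc s x from
        ⟨hy2, m2.2.1.trans hy.1.le, hy.2⟩)
      exact absurd (hy.1.trans_le this) (lt_irrefl _)
  have hinc : ∀ s t, a ≤ s → s ≤ t → t ≤ b → |D t - D s| ≤ (∫ r in s..t, ψ r) + C * (t - s) ^ κ := by
    intro s t hs hst ht
    have hs0 : 0 ≤ s := ha0.trans hs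
    have htT : t ≤ T := ht.trans hbT
    have hA : IsCompact (rough T D ∩ Icc s t) :=
      isCompact_Icc.inter_left (rough_closed T D)
    rcases (rough T D ∩ Icc s t).eq_empty_or_nonempty with h0 | h0
    · have e0 : D t = D s := const_of_flat hs0 hst htT (fun x hx hx2 => by
        have : x ∈ rough T D ∩ Icc s t := ⟨hx2, hx⟩
        rw [h0] at this
        exact this)
      rw [e0, sub_self, abs_zero]
      exact add_nonneg (intervalIntegral.integral_nonneg hst fun r _ => hψ0 r)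
        (mul_nonneg hC (Real.rpow_nonneg (sub_nonneg.2 hst) _))
    · set s' := sInf (rough T D ∩ Icc s t) with hs'
      set t' := sSup (rough T D ∩ Icc s t) with ht'
      have m1 : s' ∈ rough T D ∩ Icc s t := hA.sInf_mem h0
      have m2 : t' ∈ rough T D ∩ Icc s t := hA.sSup_mem h0
      have f1 : s' ∈ F := hF s' m1.1 (hnear s' ⟨hs.trans m1.2.1, m1.2.2.trans ht⟩)
      have f2 : t' ∈ F := hF t' m2.1 (hnear t' ⟨hs.trans m2.2.1, m2.2.2.trans ht⟩)
      have hst' : s' ≤ t' := csInf_le_csSup h0 hA.bddBelow hA.bddAbove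
      have e1 : D s = D s' := by
        rcases eq_or_lt_of_le m1.2.1 with h1 | h1
        · rw [← h1]
        refine left_const hs0 h1 (m1.2.2.trans htT) (fun x hx hx2 => ?_) (hL s' f1 m1.1.1)
        have := csInf_le hA.bddBelow (show x ∈ rough T D ∩ Icc s t from
          ⟨hx2, hx.1, hx.2.le.trans m1.2.2⟩)
        exact absurd (this.trans_lt hx.2) (lt_irrefl _)
      have e2 : D t = D t' := by
        rcases eq_or_lt_of_le m2.2.2 with h1 | h1
        · rw [h1]
        refine right_const (hs0.trans m2.2.1) h1 htT (fun x hx hx2 => ?_) (hR t' f2 m2.1.1)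
        have := le_csSup hA.bddAbove (show x ∈ rough T D ∩ Icc s t from
          ⟨hx2, m2.2.1.trans hx.1.le, hx.2⟩)
        exact absurd (hx.1.trans_le this) (lt_irrefl _)
      rw [e1, e2]
      refine (hb s' f1 t' f2 (hs0.trans m1.2.1) hst' (m2.2.2.trans htT)).trans ?_
      refine add_le_add (int_mono_set hψi hψ0 hs0 m1.2.1 hst' m2.2.2 htT)
        (mul_le_mul_of_nonneg_left ?_ hC)
      exact Real.rpow_le_rpow (sub_nonneg.2 hst') (by linarith [m1.2.1, m2.2.2]) hκ.le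
  -- continuity
  have hcont : ContinuousOn D (Icc a b) := by
    intro t ht
    have ht0 : t ∈ Icc 0 T := ⟨ha0.trans ht.1, ht.2.trans hbT⟩
    have c1 : Tendsto (fun x => |∫ r in t..x, ψ r| + C * |x - t| ^ κ) (𝓝[Icc a b] t)
        (𝓝 (|∫ r in t..t, ψ r| + C * |t - t| ^ κ)) := by
      have c2 : ContinuousOn (fun x => ∫ τ in t..x, ψ τ) (uIcc 0 T) :=
        intervalIntegral.continuousOn_primitive_interval' hψi (by rwa [uIcc_of_le hT])
      rw [uIcc_of_le hT] at c2
      have c3 : ContinuousWithinAt (fun x => ∫ τ in t..x, ψ τ) (Icc a b) t :=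
        (c2 t ht0).mono (Icc_subset_Icc ha0 hbT)
      have c4 : Continuous fun x : ℝ => C * |x - t| ^ κ :=
        continuous_const.mul ((continuous_id.sub continuous_const).abs.rpow_const
          (fun _ => Or.inr hκ.le))
      exact c3.abs.add c4.continuousWithinAt
    rw [intervalIntegral.integral_same, abs_zero, sub_self, abs_zero, Real.zero_rpow hκ.ne',
      mul_zero, add_zero] at c1
    refine tendsto_iff_dist_tendsto_zero.2 (squeeze_zero' (Eventually.of_forall fun _ => dist_nonneg)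
      ?_ c1)
    filter_upwards [self_mem_nhdsWithin] with x hx
    rw [Real.dist_eq]
    rcases le_total t x with h | h
    · refine (hinc t x ht.1 h hx.2).trans ?_
      rw [abs_of_nonneg (sub_nonneg.2 h)]
      exact add_le_add (le_abs_self _) le_rfl
    · rw [abs_sub_comm]
      refine (hinc x t hx.1 h ht.2).trans ?_
      rw [abs_sub_comm x t, abs_of_nonneg (sub_nonneg.2 h), intervalIntegral.integral_symm x t,
        abs_neg]
      exact add_le_add (le_abs_self _) le_rfl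
  -- the image of the interval is a null set
  have himg : volume (D '' Icc a b) = 0 := by
    have h1 : D '' Icc a b ⊆ D '' rough T D ∪ {D a} := by
      rintro _ ⟨x, hx, rfl⟩
      rcases hval x hx a le_rfl hx.1 with h | ⟨x', hx', h⟩
      · exact Or.inr (by rw [h]; rfl)
      · exact Or.inl ⟨x', hx'.1, h.symm⟩
    exact measure_mono_null h1 (measure_union_null hnull (measure_singleton _))
  have hconst : ∀ x ∈ Icc a b, ∀ y ∈ Icc a b, D x = D y := by
    have h1 : (D '' Icc a b).OrdConnected := (isPreconnected_Icc.image D hcont).ordConnected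
    have h2 : ∀ x ∈ Icc a b, ∀ y ∈ Icc a b, D x ≤ D y → D x = D y := by
      intro x hx y hy hxy
      have h3 := measure_mono_null (h1.out (mem_image_of_mem D hx) (mem_image_of_mem D hy)) himg
      rw [Real.volume_Icc, ENNReal.ofReal_eq_zero] at h3
      linarith
    intro x hx y hy
    rcases le_total (D x) (D y) with h | h
    · exact h2 x hx y hy h
    · exact (h2 y hy x hx h).symm
  intro hr
  obtain ⟨s, hs, hs1, hs2⟩ := hr.2 (δ / 2) (by positivity)
  rw [abs_lt] at hs1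
  exact hs2 (hconst s ⟨max_le hs.1 (by linarith), le_min hs.2 (by linarith)⟩ t₀ ⟨hat, htb⟩)

/-! ### the defect -/

section

variable {Ω : Set E3} {ν T M : ℝ} {u : ℝ → L2V Ω} {G : ℝ → L2M Ω} {f : ℝ → L2V Ω}

theorem wt2_zero_add {θ : ℝ → ℝ} (τ : ℝ) :
    wt2 ν M u G f θ τ = wt2 ν M u G f (fun _ => 0) τ + 40 * C2 * θ τ := by
  unfold wt2 wt1
  ring

theorem defect_grow (hΩ : IsOpen Ω) (hν : 0 ≤ ν) (hT : 0 < T) (h : IsWeakSolution Ω ν T u G f)
    (hM : ∀ t ∈ Icc 0 T, ‖u t‖ ≤ M) {κ : ℝ} (hκ : 0 < κ) (hκ1 : κ ≤ 1) {m : ℕ} {s t : ℝ}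
    (hs : s ∈ growN T (fun τ => ‖G τ‖ ^ 2) κ m) (ht : t ∈ growN T (fun τ => ‖G τ‖ ^ 2) κ m)
    (h0 : 0 ≤ s) (hst : s ≤ t) (htT : t ≤ T) :
    |defect ν u G f t - defect ν u G f s|
      ≤ (∫ τ in s..t, wt2 ν M u G f (fun _ => 0) τ) + (160 * C2 * m / κ) * (t - s) ^ κ := by
  set θ : ℝ → ℝ := fun τ => 2 * (m : ℝ) * |τ - s| ^ (κ - 1) + 2 * (m : ℝ) * |τ - t| ^ (κ - 1)
    with hθ
  have hm0 : (0 : ℝ) ≤ m := Nat.cast_nonneg m
  have hs0 : ∀ τ, 0 ≤ 2 * (m : ℝ) * |τ - s| ^ (κ - 1) := fun τ =>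
    mul_nonneg (by positivity) (Real.rpow_nonneg (abs_nonneg _) _)
  have ht0 : ∀ τ, 0 ≤ 2 * (m : ℝ) * |τ - t| ^ (κ - 1) := fun τ =>
    mul_nonneg (by positivity) (Real.rpow_nonneg (abs_nonneg _) _)
  have hθ0 : ∀ τ, 0 ≤ θ τ := fun τ => add_nonneg (hs0 τ) (ht0 τ)
  have hθii : ∀ a b, IntervalIntegrable θ volume a b := fun a b =>
    ((wp_ii hκ s a b).const_mul _).add ((wp_ii hκ t a b).const_mul _)
  have k1 := growN_tame hκ hκ1 hs (hθii 0 T) (fun τ => by
    have := ht0 τ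
    simp only [hθ]
    linarith)
  have k2 := growN_tame hκ hκ1 ht (hθii 0 T) (fun τ => by
    have := hs0 τ
    simp only [hθ]
    linarith)
  refine (defect_bound hΩ hν hT h hM hθ0 (hθii 0 T) k1 k2 h0 hst htT).trans (le_of_eq ?_)
  have hz : IntervalIntegrable (fun _ : ℝ => (0 : ℝ)) volume 0 T := intervalIntegrable_const
  have e1 : ∫ τ in s..t, wt2 ν M u G f θ τ
      = (∫ τ in s..t, wt2 ν M u G f (fun _ => 0) τ) + ∫ τ in s..t, 40 * C2 * θ τ := by
    rw [← intervalIntegral.integral_add (sub_int (wt2_ii hΩ hν hT h hM hz) h0 hst htT)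
      ((hθii s t).const_mul _)]
    exact intervalIntegral.integral_congr fun τ _ => wt2_zero_add τ
  have e2 : ∫ τ in s..t, θ τ = 4 * m * ((t - s) ^ κ / κ) := by
    simp only [hθ]
    rw [intervalIntegral.integral_add ((wp_ii hκ s s t).const_mul _)
      ((wp_ii hκ t s t).const_mul _), intervalIntegral.integral_const_mul,
      intervalIntegral.integral_const_mul, wp_left hκ hst, wp_right hκ hst]
    ring
  rw [e1, intervalIntegral.integral_const_mul, e2]
  ring

theorem left_grow (hΩ : IsOpen Ω) (hν : 0 ≤ ν) (hT : 0 < T) (h : IsWeakSolution Ω ν T u G f)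
    (hM : ∀ t ∈ Icc 0 T, ‖u t‖ ≤ M) {κ : ℝ} (hκ : 0 < κ) (hκ1 : κ ≤ 1) {m : ℕ} {t : ℝ}
    (ht : t ∈ growN T (fun τ => ‖G τ‖ ^ 2) κ m) : LeftOK (defect ν u G f) t := by
  have hθ0 : ∀ τ, 0 ≤ 2 * (m : ℝ) * |τ - t| ^ (κ - 1) := fun τ =>
    mul_nonneg (by positivity) (Real.rpow_nonneg (abs_nonneg _) _)
  exact left_tame hΩ hν hT h hM hθ0 ((wp_ii hκ t 0 T).const_mul _)
    (growN_tame hκ hκ1 ht ((wp_ii hκ t 0 T).const_mul _) fun τ => le_rfl)

theorem right_grow (hΩ : IsOpen Ω) (hν : 0 ≤ ν) (hT : 0 < T) (h : IsWeakSolution Ω ν T u G f)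
    (hM : ∀ t ∈ Icc 0 T, ‖u t‖ ≤ M) {κ : ℝ} (hκ : 0 < κ) (hκ1 : κ ≤ 1) {m : ℕ} {t : ℝ}
    (ht : t ∈ growN T (fun τ => ‖G τ‖ ^ 2) κ m) : RightOK T (defect ν u G f) t := by
  have hθ0 : ∀ τ, 0 ≤ 2 * (m : ℝ) * |τ - t| ^ (κ - 1) := fun τ =>
    mul_nonneg (by positivity) (Real.rpow_nonneg (abs_nonneg _) _)
  exact right_tame hΩ hν hT h hM hθ0 ((wp_ii hκ t 0 T).const_mul _)
    (growN_tame hκ hκ1 ht ((wp_ii hκ t 0 T).const_mul _) fun τ => le_rfl)

/-- The image of a null set of times of power growth. -/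
theorem grow_null (hΩ : IsOpen Ω) (hν : 0 ≤ ν) (hT : 0 < T) (h : IsWeakSolution Ω ν T u G f)
    {κ : ℝ} (hκ : 0 < κ) (hκ1 : κ ≤ 1) {S : Set ℝ} (hS : μH[κ] S = 0) :
    volume (defect ν u G f '' {t | t ∈ Icc 0 T ∧ t ∈ S ∧ Growth T (fun τ => ‖G τ‖ ^ 2) κ t})
      = 0 := by
  obtain ⟨M, hM⟩ := h.bdd
  have hC2 := C2_nonneg
  have hsub : {t | t ∈ Icc 0 T ∧ t ∈ S ∧ Growth T (fun τ => ‖G τ‖ ^ 2) κ t}
      ⊆ ⋃ m : ℕ, growN T (fun τ => ‖G τ‖ ^ 2) κ m ∩ S := by
    rintro t ⟨ht, hS, hg⟩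
    obtain ⟨m, hm⟩ := mem_growN hκ (fun τ => by positivity) (G2_ii hΩ hν hT h hM) ht hg
    exact mem_iUnion.2 ⟨m, hm, hS⟩
  refine measure_mono_null (image_mono hsub) ?_
  rw [image_iUnion]
  refine measure_iUnion_null fun m => ?_
  have hz : IntervalIntegrable (fun _ : ℝ => (0 : ℝ)) volume 0 T := intervalIntegrable_const
  exact image_null_holder (C := 160 * C2 * m / κ) hT.le hκ hκ1 (by positivity)
    (wt2_nonneg hν hT hM (θ := fun _ => 0) (fun _ => le_rfl)) (wt2_ii hΩ hν hT h hM hz)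
    (fun s hs t ht h0 hst htT => defect_grow hΩ hν hT h hM hκ hκ1 hs ht h0 hst htT)
    (fun t ht => ht.1) inter_subset_left
    (measure_mono_null inter_subset_right hS)

/-- **Energy equality.** -/
theorem exc_eq (hΩ : IsOpen Ω) (hν : 0 ≤ ν) (hT : 0 < T) (h : IsWeakSolution Ω ν T u G f)
    {θ : ℕ → ℝ → ℝ} (hθ0 : ∀ n t, 0 ≤ θ n t) (hθ : ∀ n, IntervalIntegrable (θ n) volume 0 T)
    {N : Set ℝ} (hN : N.Countable) (hJ : ∀ t ∈ N, NoJump T u t)
    {S : ℕ → Set ℝ} {κ : ℕ → ℝ} (hκ : ∀ n, 0 < κ n) (hκ1 : ∀ n, κ n ≤ 1)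
    (hS : ∀ n, μH[κ n] (S n) = 0)
    (hall : ∀ t ∈ rough T (defect ν u G f), t ∈ N ∨
      (∃ n, TameAt T (fun τ => ‖G τ‖ ^ 2) (θ n) t) ∨
      ∃ n, t ∈ S n ∧ Growth T (fun τ => ‖G τ‖ ^ 2) (κ n) t) :
    ∀ t ∈ Icc 0 T, defect ν u G f t = 0 := by
  obtain ⟨M, hM⟩ := h.bdd
  have hC2 := C2_nonneg
  set g : ℝ → ℝ := fun τ => ‖G τ‖ ^ 2 with hg
  have hgi : IntervalIntegrable g volume 0 T := G2_ii hΩ hν hT h hM
  have hz : IntervalIntegrable (fun _ : ℝ => (0 : ℝ)) volume 0 T := intervalIntegrable_const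
  -- the image of the rough set is a null set
  have hnull : volume (defect ν u G f '' rough T (defect ν u G f)) = 0 := by
    have hsub : rough T (defect ν u G f) ⊆ N ∪ ({t | t ∈ Icc 0 T ∧ ((∃ z, (u t, z) ∈ H1graph Ω) ∨
        ∃ n, TameAt T g (θ n) t)} ∪
        ⋃ n, {t | t ∈ Icc 0 T ∧ t ∈ S n ∧ Growth T g (κ n) t}) := by
      intro t ht
      rcases hall t ht with h1 | h1 | ⟨n, h1, h2⟩
      · exact Or.inl h1
      · exact Or.inr (Or.inl ⟨ht.1, Or.inr h1⟩)
      · exact Or.inr (Or.inr (mem_iUnion.2 ⟨n, ht.1, h1, h2⟩))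
    refine measure_mono_null (image_mono hsub) ?_
    rw [image_union, image_union, image_iUnion]
    refine measure_union_null ((hN.image _).measure_zero _)
      (measure_union_null (tame_null hΩ hν hT h hθ0 hθ) (measure_iUnion_null fun n => ?_))
    exact grow_null hΩ hν hT h (hκ n) (hκ1 n) (hS n)
  set F : ℕ → Set ℝ := fun k => if k.unpair.1 = 0 then tame T g (wk θ k.unpair.2)
    else growN T g (κ k.unpair.2.unpair.1) k.unpair.2.unpair.2 with hF
  have hFc : ∀ k, IsClosed (F k) := by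
    intro k
    simp only [hF]
    split_ifs
    · exact tame_closed _ _ _
    · exact growN_closed _ _ _ _
  have key := rough_dense (T := T) (D := defect ν u G f) (F := F) hN hFc ?_ ?_
  · have hempty : ∀ t, t ∉ rough T (defect ν u G f) := by
      intro t₀ ht₀
      obtain ⟨t, ht, _, h2, h3⟩ := key t₀ ht₀ 1 one_pos
      rcases hall t ht with h4 | ⟨n, h4⟩ | ⟨n, _, h4⟩
      · exact h2 h4
      · obtain ⟨k, hk⟩ := mem_tame_wk hΩ hν hT h hM hθ0 hθ ht.1 h4
        refine h3 (Nat.pair 0 k) ?_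
        simp only [hF, Nat.unpair_pair, if_true]
        exact hk
      · obtain ⟨m, hm⟩ := mem_growN (hκ n) (fun τ => by positivity) hgi ht.1 h4
        refine h3 (Nat.pair 1 (Nat.pair n m)) ?_
        simp only [hF, Nat.unpair_pair, one_ne_zero, if_false]
        exact hm
    intro t ht
    rw [const_of_flat le_rfl ht.1 ht.2 (fun s _ => hempty s)]
    exact Sol.defect_zero
  · intro k t₀ ht₀ δ hδ
    by_contra hcon
    push Not at hcon
    by_cases hk : k.unpair.1 = 0
    · have e : F k = tame T g (wk θ k.unpair.2) := by simp only [hF]; rw [if_pos hk]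
      rw [e] at hcon
      refine no_portion_holder (C := 0) (κ := 1) one_pos le_rfl
        (wt2_nonneg hν hT hM (wk_nonneg hθ0 k.unpair.2))
        (wt2_ii hΩ hν hT h hM (wk_ii hθ k.unpair.2)) ?_ ?_ ?_ hnull ht₀.1 hδ hcon ht₀
      · intro s hs t ht h0 hst htT
        rw [zero_mul, add_zero]
        exact defect_bound hΩ hν hT h hM (wk_nonneg hθ0 _) (wk_ii hθ _) hs ht h0 hst htT
      · intro p hp _
        exact left_tame hΩ hν hT h hM (wk_nonneg hθ0 _) (wk_ii hθ _) hp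
      · intro p hp _
        exact right_tame hΩ hν hT h hM (wk_nonneg hθ0 _) (wk_ii hθ _) hp
    · have e : F k = growN T g (κ k.unpair.2.unpair.1) k.unpair.2.unpair.2 := by
        simp only [hF]; rw [if_neg hk]
      rw [e] at hcon
      set n := k.unpair.2.unpair.1
      set m := k.unpair.2.unpair.2
      have hm0 : (0 : ℝ) ≤ m := Nat.cast_nonneg m
      refine no_portion_holder (C := 160 * C2 * m / κ n) (κ := κ n) (hκ n)
        (div_nonneg (mul_nonneg (mul_nonneg (by norm_num) hC2) hm0) (hκ n).le)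
        (wt2_nonneg hν hT hM (θ := fun _ => 0) (fun _ => le_rfl))
        (wt2_ii hΩ hν hT h hM hz) ?_ ?_ ?_ hnull ht₀.1 hδ hcon ht₀
      · intro s hs t ht h0 hst htT
        exact defect_grow hΩ hν hT h hM (hκ n) (hκ1 n) hs ht h0 hst htT
      · intro p hp _
        exact left_grow hΩ hν hT h hM (hκ n) (hκ1 n) hp
      · intro p hp _
        exact right_grow hΩ hν hT h hM (hκ n) (hκ1 n) hp
  · intro t₀ ht₀ hN₀ δ hδ
    by_contra hcon
    push Not at hcon
    exact no_isolated ht₀.1 hδ (left_nojump hΩ hν hT h hM ht₀.1 (hJ t₀ hN₀).1)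
      (right_nojump hΩ hν hT h hM ht₀.1 (hJ t₀ hN₀).2) hcon ht₀

end

end Pool.Agent.Helper30E
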