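import Pool.Agent.Helper30E.T3

/-!
The exceptional times: the theorem in terms of the public definitions.
-/

set_option autoImplicit false
set_option linter.unusedSectionVars false

open MeasureTheory Set Filter Topology
open scoped InnerProductSpace ENNReal ContDiff NNReal

namespace Pool.Agent.Helper30E

open H772R2.NS.Pub Pool.Agent.TH301.EQ

variable {Ω : Set R3} {ν T : ℝ} {u : ℝ → L2 Ω R3} {G : ℝ → L2 Ω Mat} {f : ℝ → L2 Ω R3}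

theorem pub_exc_eq (hΩ : IsOpen Ω) (hν : 0 ≤ ν) (hT : 0 < T)
    (hu : IsWeakSolution Ω ν T u G f)
    {N : Set ℝ} (hN : N.Countable) (hJ : ∀ t ∈ N, NoJump T u t)
    {S : ℕ → Set ℝ} {κ : ℕ → ℝ} (hκ : ∀ n, 0 < κ n) (hκ1 : ∀ n, κ n ≤ 1)
    (hS : ∀ n, μH[κ n] (S n) = 0)
    (hall : ∀ t ∈ rough T (energyDefect ν u G f), t ∈ N ∨
      (∃ C δ : ℝ, 0 < δ ∧ ∀ x y, 0 ≤ x → x ≤ t → t ≤ y → y ≤ T → y - x ≤ δ →
        ∫ τ in x..y, ‖G τ‖ ^ 2 ≤ C * (y - x) ^ (1 / 2 : ℝ)) ∨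
      ∃ n, t ∈ S n ∧ Growth T (fun τ => ‖G τ‖ ^ 2) (κ n) t) :
    ∀ t ∈ Icc 0 T, energyDefect ν u G f t = 0 := by
  intro t ht
  rw [pub_defect_eq hΩ hν hT hu ht]
  rw [pub_rough hΩ hν hT hu] at hall
  refine exc_eq (Ω := (Ω : Set H772R2.NS.E3)) hΩ hν hT (toNS hu) (θ := fun _ τ => ‖G τ‖ ^ 2)
    (fun _ _ => by positivity) (fun _ => ii_of_on hT (pub_G2 hu)) hN hJ hκ hκ1 hS
    (fun t ht => ?_) t ht
  rcases hall t ht with h | ⟨C, δ, hδ, h⟩ | h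
  · exact Or.inl h
  · refine Or.inr (Or.inl ⟨0, ?_⟩)
    refine tameAt_of_typeI (fun τ => by positivity) (ii_of_on hT (pub_G2 hu)) ht.1 hδ (C := C) ?_
    intro x y h1 h2 h3 h4 h5
    rw [Real.sqrt_eq_rpow]
    exact h x y h1 h2 h3 h4 h5
  · exact Or.inr (Or.inr h)

end Pool.Agent.Helper30E
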