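import Pool.Agent.Helper30E.T4

/-!
Upper densities: the times at which the growth exponent `d` fails for an integrable function form a
set of zero `d`-dimensional Hausdorff measure; and the growth of `∫ g ^ p` gives tame times.
-/

set_option autoImplicit false
set_option linter.unusedSectionVars false

open MeasureTheory Set Filter Topology
open scoped InnerProductSpace ENNReal ContDiff NNReal

namespace Pool.Agent.Helper30E

open Pool.Agent.TH340.FF Pool.Agent.TH301.EQ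

/-- The time `t` has the growth exponent `a`: for a constant `C` and all short intervals `[x, y]` in
`[0, T]` which contain `t` the integral of `g` over `[x, y]` is at most `C (y - x) ^ a`. -/
def GrowthE (T : ℝ) (g : ℝ → ℝ) (a t : ℝ) : Prop :=
  ∃ C δ : ℝ, 0 < δ ∧ ∀ x y, 0 ≤ x → x ≤ t → t ≤ y → y ≤ T → y - x ≤ δ →
    ∫ τ in x..y, g τ ≤ C * (y - x) ^ a

theorem density_cover {T d : ℝ} {γ : ℝ → ℝ} (hT : 0 ≤ T) (hd : 0 < d) (hγ0 : ∀ t, 0 ≤ γ t)
    (hγ : IntervalIntegrable γ volume 0 T) (n : ℕ) :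
    ∃ (v : Set ℝ) (c ρ : ℝ → ℝ), v.Countable ∧ (∀ b ∈ v, 0 < ρ b ∧ 2 * ρ b ≤ 1 / ((n : ℝ) + 1)) ∧
      {t | t ∈ Icc 0 T ∧ ¬ GrowthE T γ d t} ⊆ ⋃ b : v, Metric.closedBall (c b) (5 * ρ b) ∧
      ∑' b : v, ENNReal.ofReal ((10 * ρ b) ^ d)
        ≤ ENNReal.ofReal (5 ^ d * (1 / ((n : ℝ) + 1)) * ∫ τ in (0 : ℝ)..T, γ τ) := by
  have hn0 : (0 : ℝ) < (n : ℝ) + 1 := by positivity
  have h1 : ∀ t ∈ {t | t ∈ Icc 0 T ∧ ¬ GrowthE T γ d t}, ∃ x y, 0 ≤ x ∧ x ≤ t ∧ t ≤ y ∧ y ≤ T ∧
      y - x ≤ 1 / ((n : ℝ) + 1) ∧ ((n : ℝ) + 1) * (y - x) ^ d < ∫ τ in x..y, γ τ := by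
    rintro t ⟨ht, hg⟩
    by_contra hcon
    push Not at hcon
    exact hg ⟨(n : ℝ) + 1, 1 / ((n : ℝ) + 1), by positivity, fun x y a1 a2 a3 a4 a5 =>
      hcon x y a1 a2 a3 a4 a5⟩
  choose! x y hx using h1
  have hpos : ∀ t ∈ {t | t ∈ Icc 0 T ∧ ¬ GrowthE T γ d t}, x t < y t := by
    intro t ht
    obtain ⟨a1, a2, a3, a4, a5, a6⟩ := hx t ht
    rcases eq_or_lt_of_le (a2.trans a3) with h | h
    · rw [h, sub_self, Real.zero_rpow hd.ne', mul_zero, intervalIntegral.integral_same] at a6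
      exact absurd a6 (lt_irrefl _)
    · exact h
  set c : ℝ → ℝ := fun t => (x t + y t) / 2 with hc
  set ρ : ℝ → ℝ := fun t => (y t - x t) / 2 with hρ
  have hball : ∀ t, Metric.closedBall (c t) (ρ t) = Icc (x t) (y t) := by
    intro t
    rw [Real.closedBall_eq_Icc]
    simp only [hc, hρ]
    congr 1 <;> ring
  obtain ⟨v, hvE, hdisj, hcov⟩ := Vitali.exists_disjoint_subfamily_covering_enlargement_closedBall
    {t | t ∈ Icc 0 T ∧ ¬ GrowthE T γ d t} c ρ T (fun t ht => by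
      obtain ⟨a1, a2, a3, a4, a5, a6⟩ := hx t ht
      simp only [hρ]
      linarith) 5 (by norm_num)
  have hcount : v.Countable := by
    refine hdisj.countable_of_nonempty_interior fun t ht => ?_
    rw [hball, interior_Icc, nonempty_Ioo]
    exact hpos t (hvE ht)
  refine ⟨v, c, ρ, hcount, fun b hb => ?_, fun t ht => ?_, ?_⟩
  · have h2 := hpos b (hvE hb)
    obtain ⟨a1, a2, a3, a4, a5, a6⟩ := hx b (hvE hb)
    simp only [hρ]
    exact ⟨by linarith, by linarith⟩
  · obtain ⟨b, hb, hsub⟩ := hcov t ht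
    obtain ⟨a1, a2, a3, a4, a5, a6⟩ := hx t ht
    refine mem_iUnion.2 ⟨⟨b, hb⟩, hsub ?_⟩
    rw [hball]
    exact ⟨a2, a3⟩
  · set μ : Measure ℝ := volume.withDensity fun τ => ENNReal.ofReal (γ τ) with hμ
    have hint : ∀ a b, 0 ≤ a → a ≤ b → b ≤ T →
        μ (Ioc a b) = ENNReal.ofReal (∫ τ in a..b, γ τ) := by
      intro a b ha hab hb
      rw [hμ, withDensity_apply _ measurableSet_Ioc, intervalIntegral.integral_of_le hab,
        ofReal_integral_eq_lintegral_ofReal]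
      · exact (intervalIntegrable_iff_integrableOn_Ioc_of_le hab).1 (sub_int hγ ha hab hb)
      · exact Eventually.of_forall fun τ => hγ0 τ
    have h3 : ∀ b : v, ENNReal.ofReal ((10 * ρ b) ^ d)
        ≤ ENNReal.ofReal (5 ^ d * (1 / ((n : ℝ) + 1))) * μ (Ioc (x b) (y b)) := by
      rintro ⟨b, hb⟩
      obtain ⟨a1, a2, a3, a4, a5, a6⟩ := hx b (hvE hb)
      have hb0 := hpos b (hvE hb)
      rw [hint _ _ a1 hb0.le a4, ← ENNReal.ofReal_mul (by positivity)]
      refine ENNReal.ofReal_le_ofReal ?_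
      have e1 : (10 * ρ b) ^ d = 5 ^ d * (y b - x b) ^ d := by
        rw [← Real.mul_rpow (by norm_num) (by linarith)]
        congr 1
        simp only [hρ]
        ring
      change (10 * ρ b) ^ d ≤ _
      rw [e1, mul_assoc]
      refine mul_le_mul_of_nonneg_left ?_ (by positivity)
      rw [one_div, ← div_eq_inv_mul, le_div_iff₀ hn0, mul_comm]
      exact a6.le
    refine (ENNReal.tsum_le_tsum h3).trans ?_
    have e2 : ENNReal.ofReal (5 ^ d * (1 / ((n : ℝ) + 1)) * ∫ τ in (0 : ℝ)..T, γ τ)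
        = ENNReal.ofReal (5 ^ d * (1 / ((n : ℝ) + 1))) * μ (Ioc 0 T) := by
      rw [hint 0 T le_rfl hT le_rfl, ← ENNReal.ofReal_mul (by positivity)]
    rw [ENNReal.tsum_mul_left, e2]
    refine mul_le_mul_right ?_ _
    haveI := hcount.to_subtype
    refine (tsum_meas_le_meas_iUnion_of_disjoint μ (fun b : v => measurableSet_Ioc) ?_).trans
      (measure_mono ?_)
    · rintro ⟨a, ha⟩ ⟨b, hb⟩ hab
      have hab' : a ≠ b := fun h => hab (Subtype.ext h)
      have := hdisj ha hb hab'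
      simp only [Function.onFun, hball] at this ⊢
      exact this.mono Ioc_subset_Icc_self Ioc_subset_Icc_self
    · refine iUnion_subset ?_
      rintro ⟨b, hb⟩
      obtain ⟨a1, a2, a3, a4, a5, a6⟩ := hx b (hvE hb)
      exact Ioc_subset_Ioc a1 a4

/-- The times at which the growth exponent `d` fails form a null set of dimension `d`. -/
theorem density_null {T d : ℝ} {γ : ℝ → ℝ} (hT : 0 ≤ T) (hd : 0 < d) (hγ0 : ∀ t, 0 ≤ γ t)
    (hγ : IntervalIntegrable γ volume 0 T) :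
    μH[d] {t | t ∈ Icc 0 T ∧ ¬ GrowthE T γ d t} = 0 := by
  choose v c ρ hv hρ hcov hsum using density_cover hT hd hγ0 hγ
  have : ∀ n, Countable (v n) := fun n => (hv n).to_subtype
  set G0 := ∫ τ in (0 : ℝ)..T, γ τ with hG0
  have hlim0 : Tendsto (fun n : ℕ => 1 / ((n : ℝ) + 1)) atTop (𝓝 0) :=
    tendsto_one_div_add_atTop_nhds_zero_nat
  have hr : Tendsto (fun n : ℕ => ENNReal.ofReal (5 * (1 / ((n : ℝ) + 1)))) atTop (𝓝 0) := by
    have := ENNReal.tendsto_ofReal (hlim0.const_mul 5)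
    rwa [mul_zero, ENNReal.ofReal_zero] at this
  have hdiam : ∀ n, ∀ b : v n, Metric.ediam (Metric.closedBall (c n b) (5 * ρ n b))
      = ENNReal.ofReal (10 * ρ n b) := by
    intro n b
    rw [Real.closedBall_eq_Icc, Real.ediam_Icc]
    congr 1
    ring
  have key := Measure.hausdorffMeasure_le_liminf_tsum (ι := fun n => v n) d
    {t | t ∈ Icc 0 T ∧ ¬ GrowthE T γ d t} (l := atTop)
    (fun n : ℕ => ENNReal.ofReal (5 * (1 / ((n : ℝ) + 1)))) hr
    (fun n b => Metric.closedBall (c n b) (5 * ρ n b))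
    (Eventually.of_forall fun n b => by
      rw [hdiam]
      refine ENNReal.ofReal_le_ofReal ?_
      have := (hρ n b b.2).2
      linarith)
    (Eventually.of_forall fun n => hcov n)
  have h2 : Tendsto (fun n : ℕ => ENNReal.ofReal (5 ^ d * (1 / ((n : ℝ) + 1)) * G0)) atTop
      (𝓝 0) := by
    have := ENNReal.tendsto_ofReal ((hlim0.const_mul (5 ^ d)).mul_const G0)
    rwa [mul_zero, zero_mul, ENNReal.ofReal_zero] at this
  refine le_antisymm (key.trans ?_) zero_le
  rw [← h2.liminf_eq]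
  refine liminf_le_liminf (Eventually.of_forall fun n => ?_)
  refine le_trans (le_of_eq ?_) (hsum n)
  refine tsum_congr fun b => ?_
  rw [hdiam, ENNReal.ofReal_rpow_of_nonneg (by have := (hρ n b b.2).1; positivity) hd.le]

end Pool.Agent.Helper30E
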