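import Pool.Agent.Helper30E.T5

/-!
The growth of `∫ g ^ p` with the exponent `(10 - 4 p) / (10 - 3 p)` gives tame times.
-/

set_option autoImplicit false
set_option linter.unusedSectionVars false

open MeasureTheory Set Filter Topology
open scoped InnerProductSpace ENNReal ContDiff NNReal

namespace Pool.Agent.Helper30E

open Pool.Agent.TH340.FF Pool.Agent.TH301.EQ

/-- pointwise: `g ^ 2 ≤ l ^ (2 - p) g ^ p + l ^ 2`. -/
theorem sq_le_add {p g l : ℝ} (hp : 2 ≤ p) (hg : 0 ≤ g) (hl : 0 < l) :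
    g ^ 2 ≤ l ^ (2 - p) * g ^ p + l ^ 2 := by
  rcases le_total g l with h | h
  · have h1 : g ^ 2 ≤ l ^ 2 := pow_le_pow_left₀ hg h 2
    have h2 : 0 ≤ l ^ (2 - p) * g ^ p :=
      mul_nonneg (Real.rpow_nonneg hl.le _) (Real.rpow_nonneg hg _)
    linarith
  · have hg0 : 0 < g := hl.trans_le h
    have h1 : g ^ (2 - p) ≤ l ^ (2 - p) :=
      Real.rpow_le_rpow_of_nonpos hl h (by linarith)
    have h2 : g ^ 2 = g ^ (2 - p) * g ^ p := by
      rw [← Real.rpow_add hg0, ← Real.rpow_natCast]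
      congr 1
      push_cast
      ring
    have h3 := mul_le_mul_of_nonneg_right h1 (Real.rpow_nonneg hg p)
    have h4 : 0 ≤ l ^ 2 := by positivity
    linarith

/-- the inequality of Hölder -/
theorem holder_sq {p x y : ℝ} {g : ℝ → ℝ} (hg : ∀ t, 0 ≤ g t) (hp : 2 ≤ p) (hxy : x < y)
    (h2 : IntervalIntegrable (fun t => g t ^ 2) volume x y)
    (hpi : IntervalIntegrable (fun t => g t ^ p) volume x y) :
    (∫ τ in x..y, g τ ^ 2)
      ≤ 2 * ((∫ τ in x..y, g τ ^ p) / (y - x)) ^ (2 / p) * (y - x) := by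
  have hℓ : 0 < y - x := sub_pos.2 hxy
  set Γ := ∫ τ in x..y, g τ ^ p with hΓ
  have hΓ0 : 0 ≤ Γ := intervalIntegral.integral_nonneg hxy.le fun τ _ => Real.rpow_nonneg (hg τ) _
  have hp0 : 0 < p := by linarith
  have key : ∀ l : ℝ, 0 < l → (∫ τ in x..y, g τ ^ 2) ≤ l ^ (2 - p) * Γ + l ^ 2 * (y - x) := by
    intro l hl
    have h1 : (∫ τ in x..y, g τ ^ 2) ≤ ∫ τ in x..y, (l ^ (2 - p) * g τ ^ p + l ^ 2) :=
      intervalIntegral.integral_mono_on hxy.le h2
        ((hpi.const_mul _).add intervalIntegrable_const) fun τ _ => sq_le_add hp (hg τ) hl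
    rw [intervalIntegral.integral_add (hpi.const_mul _) intervalIntegrable_const,
      intervalIntegral.integral_const_mul, intervalIntegral.integral_const, smul_eq_mul] at h1
    linarith
  rcases eq_or_lt_of_le hΓ0 with h0 | h0
  · rw [← h0, zero_div, Real.zero_rpow (by positivity), mul_zero, zero_mul]
    refine le_of_forall_pos_le_add fun ε hε => ?_
    have h1 := key (Real.sqrt (ε / (y - x))) (Real.sqrt_pos.2 (div_pos hε hℓ))
    rw [← h0, mul_zero, zero_add, Real.sq_sqrt (div_pos hε hℓ).le, div_mul_cancel₀ _ hℓ.ne'] at h1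
    linarith
  · set z := Γ / (y - x) with hz
    have hz0 : 0 < z := div_pos h0 hℓ
    have hzΓ : z * (y - x) = Γ := div_mul_cancel₀ _ hℓ.ne'
    have h1 := key (z ^ (1 / p)) (Real.rpow_pos_of_pos hz0 _)
    have e1 : (z ^ (1 / p)) ^ 2 = z ^ (2 / p) := by
      rw [← Real.rpow_natCast, ← Real.rpow_mul hz0.le]
      congr 1
      push_cast
      ring
    have e2 : (z ^ (1 / p)) ^ (2 - p) * Γ = z ^ (2 / p) * (y - x) := by
      rw [← Real.rpow_mul hz0.le, ← hzΓ, ← mul_assoc]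
      congr 1
      nth_rewrite 2 [← Real.rpow_one z]
      rw [← Real.rpow_add hz0]
      congr 1
      field_simp
      ring
    rw [e1, e2] at h1
    linarith

/-- A time at which `∫ g ^ p` has the growth exponent `(10 - 4 p) / (10 - 3 p)` is tame for the
weight `g ^ p`. -/
theorem tame_of_growth {T p : ℝ} {g : ℝ → ℝ} (hg : ∀ t, 0 ≤ g t) (hp : 2 ≤ p) (hp' : p < 5 / 2)
    (h2 : IntervalIntegrable (fun t => g t ^ 2) volume 0 T)
    (hpi : IntervalIntegrable (fun t => g t ^ p) volume 0 T) {t : ℝ} (ht : t ∈ Icc 0 T)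
    (h : GrowthE T (fun t => g t ^ p) ((10 - 4 * p) / (10 - 3 * p)) t) :
    TameAt T (fun t => g t ^ 2) (fun t => g t ^ p) t := by
  obtain ⟨C, δ, hδ, h⟩ := h
  set d := (10 - 4 * p) / (10 - 3 * p) with hd
  have h3p : 0 < 10 - 3 * p := by linarith
  have hp0 : 0 < p := by linarith
  have hd0 : 0 < d := div_pos (by linarith) h3p
  set e := (10 - 3 * p) / p with he
  have he0 : 0 < e := div_pos h3p hp0
  have hde : (d - 1) * e = -1 := by
    have h3 : 10 - 3 * p ≠ 0 := h3p.ne'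
    have h4 : p ≠ 0 := hp0.ne'
    have h5 : d - 1 = -p / (10 - 3 * p) := by
      rw [hd, div_sub_one h3]
      congr 1
      ring
    rw [h5, he, div_mul_div_comm, mul_comm (10 - 3 * p) p, neg_mul, neg_div,
      div_self (mul_ne_zero h4 h3)]
  set K := (|C| * 2 ^ d) ^ e with hK
  refine ⟨32 * K, δ / 2, by positivity, fun x y hx hxy hy h0 a1 a2 => ?_⟩
  have hℓ : 0 < y - x := by linarith
  -- the hull
  have k1 := h (min x t) (max y t) (le_min hx ht.1) (min_le_right _ _) (le_max_right _ _)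
    (max_le hy ht.2)
  have k2 : max y t - min x t ≤ 2 * (y - x) := by
    rcases le_total y t with a | a
    · rw [max_eq_right a, min_eq_left (hxy.le.trans a)]; linarith
    · rw [max_eq_left a]
      rcases le_total x t with b | b
      · rw [min_eq_left b]; linarith
      · rw [min_eq_right b]; linarith
  have k3 := k1 (by linarith)
  have k4 : (∫ τ in x..y, g τ ^ p) ≤ ∫ τ in (min x t)..(max y t), g τ ^ p :=
    int_mono_set hpi (fun τ => Real.rpow_nonneg (hg τ) _) (le_min hx ht.1) (min_le_left _ _) hxy.le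
      (le_max_left _ _) (max_le hy ht.2)
  have k5 : C * (max y t - min x t) ^ d ≤ |C| * 2 ^ d * (y - x) ^ d := by
    have hm0 : 0 ≤ max y t - min x t := by
      have := min_le_right x t
      have := le_max_right y t
      linarith
    calc C * (max y t - min x t) ^ d ≤ |C| * (max y t - min x t) ^ d :=
          mul_le_mul_of_nonneg_right (le_abs_self _) (Real.rpow_nonneg hm0 _)
      _ ≤ |C| * (2 * (y - x)) ^ d :=
          mul_le_mul_of_nonneg_left (Real.rpow_le_rpow hm0 k2 hd0.le) (abs_nonneg _)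
      _ = |C| * 2 ^ d * (y - x) ^ d := by
          rw [Real.mul_rpow (by norm_num) hℓ.le, mul_assoc]
  set Γ := ∫ τ in x..y, g τ ^ p with hΓ
  have hΓ1 : Γ ≤ |C| * 2 ^ d * (y - x) ^ d := k4.trans (k3.trans k5)
  have hΓ0 : 0 ≤ Γ := intervalIntegral.integral_nonneg hxy.le fun τ _ => Real.rpow_nonneg (hg τ) _
  have hI0 : 0 ≤ ∫ τ in x..y, g τ ^ 2 :=
    intervalIntegral.integral_nonneg hxy.le fun τ _ => by positivity
  have hH := holder_sq hg hp hxy (sub_int h2 hx hxy.le hy) (sub_int hpi hx hxy.le hy)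
  change _ ≤ 2 * (Γ / (y - x)) ^ (2 / p) * (y - x) at hH
  change (∫ τ in x..y, g τ ^ 2) ^ 5 ≤ 32 * K * (y - x) * Γ ^ 3
  have hz0 : 0 ≤ Γ / (y - x) := div_nonneg hΓ0 hℓ.le
  set z := Γ / (y - x) with hz
  have hzΓ : z * (y - x) = Γ := div_mul_cancel₀ _ hℓ.ne'
  have hI5 : (∫ τ in x..y, g τ ^ 2) ^ 5 ≤ 32 * (z ^ (2 / p)) ^ 5 * (y - x) ^ 5 := by
    refine (pow_le_pow_left₀ hI0 hH 5).trans (le_of_eq ?_)
    ring
  have e1 : (z ^ (2 / p)) ^ 5 = z ^ e * z ^ 3 := by
    rcases eq_or_lt_of_le hz0 with h4 | h4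
    · rw [← h4, Real.zero_rpow (by positivity), Real.zero_rpow he0.ne']
      ring
    · rw [← Real.rpow_natCast, ← Real.rpow_mul h4.le, ← Real.rpow_natCast z 3,
        ← Real.rpow_add h4]
      congr 1
      rw [he]
      push_cast
      field_simp
      ring
  have hzK : z ^ e * (y - x) ≤ K := by
    have h5 : z ≤ |C| * 2 ^ d * (y - x) ^ (d - 1) := by
      rw [hz, div_le_iff₀ hℓ, Real.rpow_sub_one hℓ.ne']
      refine hΓ1.trans (le_of_eq ?_)
      field_simp
    have hC0 : 0 ≤ |C| * 2 ^ d := mul_nonneg (abs_nonneg _) (by positivity)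
    have h6 := Real.rpow_le_rpow hz0 h5 he0.le
    rw [Real.mul_rpow hC0 (Real.rpow_nonneg hℓ.le _), ← Real.rpow_mul hℓ.le, hde] at h6
    calc z ^ e * (y - x) ≤ (K * (y - x) ^ (-1 : ℝ)) * (y - x) :=
          mul_le_mul_of_nonneg_right h6 hℓ.le
      _ = K := by
          rw [Real.rpow_neg_one, mul_assoc, inv_mul_cancel₀ hℓ.ne', mul_one]
  calc (∫ τ in x..y, g τ ^ 2) ^ 5 ≤ 32 * (z ^ (2 / p)) ^ 5 * (y - x) ^ 5 := hI5
    _ = 32 * (z ^ e * (y - x)) * (y - x) * (z * (y - x)) ^ 3 := by rw [e1]; ring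
    _ ≤ 32 * K * (y - x) * Γ ^ 3 := by
        rw [hzΓ]
        have : 0 ≤ (y - x) * Γ ^ 3 := by positivity
        nlinarith [mul_le_mul_of_nonneg_right hzK this]

end Pool.Agent.Helper30E
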