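import Pool.Agent.Helper30E.T6

/-!
The carrier of the energy defect: the times near which the defect is not constant are the closure of
a small set of times, at which the defect is not Hölder continuous.
-/

set_option autoImplicit false
set_option linter.unusedSectionVars false

open MeasureTheory Set Filter Topology
open scoped InnerProductSpace ENNReal ContDiff NNReal

namespace Pool.Agent.Helper30E

open H772R2.NS Pool.Agent.TH340.FF Pool.Agent.TH301.EQ

/-- The function `D` on `[0, T]` is Hölder continuous with exponent `d` at the time `t`: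
`|D(s) - D(t)| ≤ C |s - t| ^ d` for all `s` in `[0, T]` close to `t`. -/
def HolderAt (T : ℝ) (D : ℝ → ℝ) (d t : ℝ) : Prop :=
  ∃ C δ : ℝ, 0 < δ ∧ ∀ s ∈ Icc 0 T, |s - t| ≤ δ → |D s - D t| ≤ C * |s - t| ^ d

/-- the times with the constant `n` -/
def holN (T : ℝ) (D : ℝ → ℝ) (d : ℝ) (n : ℕ) : Set ℝ :=
  {t | t ∈ Icc 0 T ∧ ∀ s ∈ Icc 0 T, |D s - D t| ≤ n * |s - t| ^ d}

theorem holN_closed {T : ℝ} {D : ℝ → ℝ} {d : ℝ} (hd : 0 < d) (n : ℕ) :
    IsClosed (holN T D d n) := by
  refine isClosed_of_closure_subset fun t ht => ?_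
  have htI : t ∈ Icc 0 T := by
    have h1 : t ∈ closure (Icc 0 T) := closure_mono (fun s hs => hs.1) ht
    rwa [isClosed_Icc.closure_eq] at h1
  refine ⟨htI, fun s hs => ?_⟩
  obtain ⟨x, hx, hlim⟩ := mem_closure_iff_seq_limit.1 ht
  have c1 : Continuous fun r : ℝ => (n : ℝ) * |s - r| ^ d + n * |t - r| ^ d :=
    (continuous_const.mul ((continuous_const.sub continuous_id).abs.rpow_const
      (fun _ => Or.inr hd.le))).add
      (continuous_const.mul ((continuous_const.sub continuous_id).abs.rpow_const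
      (fun _ => Or.inr hd.le)))
  have c2 := (c1.tendsto t).comp hlim
  have e : (n : ℝ) * |s - t| ^ d + n * |t - t| ^ d = n * |s - t| ^ d := by
    rw [sub_self, abs_zero, Real.zero_rpow hd.ne', mul_zero, add_zero]
  change Tendsto _ _ (𝓝 ((n : ℝ) * |s - t| ^ d + n * |t - t| ^ d)) at c2
  rw [e] at c2
  refine ge_of_tendsto' c2 fun k => ?_
  have h1 := (hx k).2 s hs
  have h2 := (hx k).2 t htI
  have h3 := abs_sub_le (D s) (D (x k)) (D t)
  rw [abs_sub_comm (D (x k)) (D t)] at h3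
  exact h3.trans (add_le_add h1 h2)

theorem mem_holN {T : ℝ} {D : ℝ → ℝ} {d : ℝ} {K : ℝ} (hd : 0 < d)
    (hK : ∀ t ∈ Icc 0 T, |D t| ≤ K) {t : ℝ} (ht : t ∈ Icc 0 T) (h : HolderAt T D d t) :
    ∃ n, t ∈ holN T D d n := by
  obtain ⟨C, δ, hδ, h⟩ := h
  have hK0 : 0 ≤ K := (abs_nonneg _).trans (hK t ht)
  have hδd : 0 < δ ^ d := Real.rpow_pos_of_pos hδ _
  obtain ⟨n, hn⟩ := exists_nat_ge (max C (2 * K / δ ^ d))
  have n1 : C ≤ n := (le_max_left _ _).trans hn
  have n2 : 2 * K / δ ^ d ≤ n := (le_max_right _ _).trans hn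
  refine ⟨n, ht, fun s hs => ?_⟩
  rcases le_total (|s - t|) δ with h1 | h1
  · exact (h s hs h1).trans (mul_le_mul_of_nonneg_right n1 (Real.rpow_nonneg (abs_nonneg _) _))
  · have h2 : δ ^ d ≤ |s - t| ^ d := Real.rpow_le_rpow hδ.le h1 hd.le
    rw [div_le_iff₀ hδd] at n2
    have h3 := abs_sub (D s) (D t)
    have h4 := hK s hs
    have h5 := hK t ht
    calc |D s - D t| ≤ 2 * K := by linarith
      _ ≤ n * δ ^ d := n2
      _ ≤ n * |s - t| ^ d := mul_le_mul_of_nonneg_left h2 (Nat.cast_nonneg n)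

theorem small_pow {d : ℝ} (hd : 0 < d) (n : ℕ) {ε : ℝ} (hε : 0 < ε) :
    ∃ η > 0, ∀ x : ℝ, |x| < η → (n : ℝ) * |x| ^ d < ε := by
  have c1 : Continuous fun x : ℝ => (n : ℝ) * |x| ^ d :=
    continuous_const.mul (continuous_id.abs.rpow_const (fun _ => Or.inr hd.le))
  have c2 := c1.tendsto 0
  rw [abs_zero, Real.zero_rpow hd.ne', mul_zero] at c2
  rw [Metric.tendsto_nhds_nhds] at c2
  obtain ⟨η, hη, h⟩ := c2 ε hε
  refine ⟨η, hη, fun x hx => ?_⟩
  have h1 := h (x := x) (by rwa [Real.dist_eq, sub_zero])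
  rw [Real.dist_eq, sub_zero] at h1
  exact (le_abs_self _).trans_lt h1

theorem holN_left {T : ℝ} {D : ℝ → ℝ} {d : ℝ} (hd : 0 < d) {n : ℕ} {t : ℝ}
    (ht : t ∈ holN T D d n) : LeftOK D t := by
  intro ε hε h0
  obtain ⟨η, hη, h⟩ := small_pow hd n hε
  have hm : 0 < min ε (min η t) := lt_min hε (lt_min hη h0)
  have m1 : min ε (min η t) ≤ ε := min_le_left _ _
  have m2 : min ε (min η t) ≤ η := (min_le_right _ _).trans (min_le_left _ _)
  have m3 : min ε (min η t) ≤ t := (min_le_right _ _).trans (min_le_right _ _)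
  obtain ⟨m, hme⟩ : ∃ m, m = min ε (min η t) := ⟨_, rfl⟩
  rw [← hme] at hm m1 m2 m3
  refine ⟨t - m / 2, ⟨by linarith, by linarith⟩, by linarith, ?_⟩
  refine (ht.2 (t - m / 2) ⟨by linarith, by linarith [ht.1.2]⟩).trans_lt (h _ ?_)
  rw [show t - m / 2 - t = -(m / 2) by ring, abs_neg, abs_of_pos (by linarith)]
  linarith

theorem holN_right {T : ℝ} {D : ℝ → ℝ} {d : ℝ} (hd : 0 < d) {n : ℕ} {t : ℝ}
    (ht : t ∈ holN T D d n) : RightOK T D t := by
  intro ε hε h0
  obtain ⟨η, hη, h⟩ := small_pow hd n hε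
  have hm : 0 < min ε (min η (T - t)) := lt_min hε (lt_min hη (by linarith))
  have m1 : min ε (min η (T - t)) ≤ ε := min_le_left _ _
  have m2 : min ε (min η (T - t)) ≤ η := (min_le_right _ _).trans (min_le_left _ _)
  have m3 : min ε (min η (T - t)) ≤ T - t := (min_le_right _ _).trans (min_le_right _ _)
  obtain ⟨m, hme⟩ : ∃ m, m = min ε (min η (T - t)) := ⟨_, rfl⟩
  rw [← hme] at hm m1 m2 m3
  refine ⟨t + m / 2, ⟨by linarith, by linarith⟩, by linarith, ?_⟩
  refine (ht.2 (t + m / 2) ⟨by linarith [ht.1.1], by linarith⟩).trans_lt (h _ ?_)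
  rw [show t + m / 2 - t = m / 2 by ring, abs_of_pos (by linarith)]
  linarith

/-- a time near which `D` is constant -/
theorem holderAt_of_not_rough {T : ℝ} {D : ℝ → ℝ} {d t : ℝ} (ht : t ∈ Icc 0 T)
    (h : t ∉ rough T D) : HolderAt T D d t := by
  obtain ⟨δ, hδ, h1⟩ := near_of_not_rough ht h
  refine ⟨0, δ / 2, by positivity, fun s hs hst => ?_⟩
  rw [h1 s hs (by linarith), sub_self, abs_zero, zero_mul]

/-- If a portion of the rough set is contained in a set on which the increments of `D` are bounded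
by the integral of an integrable function and a power of the distance, and the image of the portion
is a null set, then the portion is empty. -/
theorem no_portion_local {T C κ : ℝ} {D ψ : ℝ → ℝ} {F : Set ℝ} (hκ : 0 < κ) (hC : 0 ≤ C)
    (hψ0 : ∀ t, 0 ≤ ψ t) (hψi : IntervalIntegrable ψ volume 0 T)
    (hb : ∀ s ∈ F, ∀ t ∈ F, 0 ≤ s → s ≤ t → t ≤ T →
      |D t - D s| ≤ (∫ r in s..t, ψ r) + C * (t - s) ^ κ)
    (hL : ∀ p ∈ F, p ∈ Icc 0 T → LeftOK D p) (hR : ∀ p ∈ F, p ∈ Icc 0 T → RightOK T D p)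
    (hnull : volume (D '' F) = 0)
    {t₀ δ : ℝ} (ht₀ : t₀ ∈ Icc 0 T) (hδ : 0 < δ)
    (hF : ∀ t ∈ rough T D, |t - t₀| < δ → t ∈ F) : t₀ ∉ rough T D := by
  set a := max 0 (t₀ - δ / 2) with ha
  set b := min T (t₀ + δ / 2) with hb'
  have ha0 : 0 ≤ a := le_max_left _ _
  have hbT : b ≤ T := min_le_left _ _
  have hat : a ≤ t₀ := max_le ht₀.1 (by linarith)
  have htb : t₀ ≤ b := le_min ht₀.2 (by linarith)
  have hab : a ≤ b := hat.trans htb
  have hT : 0 ≤ T := ht₀.1.trans ht₀.2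
  have hnear : ∀ t ∈ Icc a b, |t - t₀| < δ := by
    intro t ht
    have h1 := (le_max_right 0 (t₀ - δ / 2)).trans ht.1
    have h2 := ht.2.trans (min_le_right T (t₀ + δ / 2))
    rw [abs_lt]
    constructor <;> linarith
  -- the value at a point is the value at a rough point to the left, or at `a`
  have hval : ∀ x ∈ Icc a b, ∀ s, a ≤ s → s ≤ x →
      D x = D s ∨ ∃ x' ∈ rough T D ∩ Icc s x, D x = D x' := by
    intro x hx s has hsx
    have hs0 : 0 ≤ s := ha0.trans has
    have hxT : x ≤ T := hx.2.trans hbT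
    have hA : IsCompact (rough T D ∩ Icc s x) := isCompact_Icc.inter_left (rough_closed T D)
    rcases (rough T D ∩ Icc s x).eq_empty_or_nonempty with h0 | h0
    · left
      exact const_of_flat hs0 hsx hxT (fun y hy hy2 => by
        have : y ∈ rough T D ∩ Icc s x := ⟨hy2, hy⟩
        rw [h0] at this
        exact this)
    · right
      have m2 := hA.sSup_mem h0
      set t' := sSup (rough T D ∩ Icc s x) with ht'
      have f2 : t' ∈ F := hF t' m2.1 (hnear t' ⟨has.trans m2.2.1, m2.2.2.trans hx.2⟩)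
      refine ⟨t', m2, ?_⟩
      rcases eq_or_lt_of_le m2.2.2 with h1 | h1
      · rw [← h1]
      refine right_const (hs0.trans m2.2.1) h1 hxT (fun y hy hy2 => ?_) (hR t' f2 m2.1.1)
      have := le_csSup hA.bddAbove (show y ∈ rough T D ∩ Icc s x from
        ⟨hy2, m2.2.1.trans hy.1.le, hy.2⟩)
      exact absurd (hy.1.trans_le this) (lt_irrefl _)
  have hinc : ∀ s t, a ≤ s → s ≤ t → t ≤ b → |D t - D s| ≤ (∫ r in s..t, ψ r) + C * (t - s) ^ κ := by
    intro s t hs hst ht
    have hs0 : 0 ≤ s := ha0.trans hs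
    have htT : t ≤ T := ht.trans hbT
    have hA : IsCompact (rough T D ∩ Icc s t) :=
      isCompact_Icc.inter_left (rough_closed T D)
    rcases (rough T D ∩ Icc s t).eq_empty_or_nonempty with h0 | h0
    · have e0 : D t = D s := const_of_flat hs0 hst htT (fun x hx hx2 => by
        have : x ∈ rough T D ∩ Icc s t := ⟨hx2, hx⟩
        rw [h0] at this
        exact this)
      rw [e0, sub_self, abs_zero]
      exact add_nonneg (intervalIntegral.integral_nonneg hst fun r _ => hψ0 r)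
        (mul_nonneg hC (Real.rpow_nonneg (sub_nonneg.2 hst) _))
    · set s' := sInf (rough T D ∩ Icc s t) with hs'
      set t' := sSup (rough T D ∩ Icc s t) with ht'
      have m1 : s' ∈ rough T D ∩ Icc s t := hA.sInf_mem h0
      have m2 : t' ∈ rough T D ∩ Icc s t := hA.sSup_mem h0
      have f1 : s' ∈ F := hF s' m1.1 (hnear s' ⟨hs.trans m1.2.1, m1.2.2.trans ht⟩)
      have f2 : t' ∈ F := hF t' m2.1 (hnear t' ⟨hs.trans m2.2.1, m2.2.2.trans ht⟩)
      have hst' : s' ≤ t' := csInf_le_csSup h0 hA.bddBelow hA.bddAbove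
      have e1 : D s = D s' := by
        rcases eq_or_lt_of_le m1.2.1 with h1 | h1
        · rw [← h1]
        refine left_const hs0 h1 (m1.2.2.trans htT) (fun x hx hx2 => ?_) (hL s' f1 m1.1.1)
        have := csInf_le hA.bddBelow (show x ∈ rough T D ∩ Icc s t from
          ⟨hx2, hx.1, hx.2.le.trans m1.2.2⟩)
        exact absurd (this.trans_lt hx.2) (lt_irrefl _)
      have e2 : D t = D t' := by
        rcases eq_or_lt_of_le m2.2.2 with h1 | h1
        · rw [h1]
        refine right_const (hs0.trans m2.2.1) h1 htT (fun x hx hx2 => ?_) (hR t' f2 m2.1.1)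
        have := le_csSup hA.bddAbove (show x ∈ rough T D ∩ Icc s t from
          ⟨hx2, m2.2.1.trans hx.1.le, hx.2⟩)
        exact absurd (hx.1.trans_le this) (lt_irrefl _)
      rw [e1, e2]
      refine (hb s' f1 t' f2 (hs0.trans m1.2.1) hst' (m2.2.2.trans htT)).trans ?_
      refine add_le_add (int_mono_set hψi hψ0 hs0 m1.2.1 hst' m2.2.2 htT)
        (mul_le_mul_of_nonneg_left ?_ hC)
      exact Real.rpow_le_rpow (sub_nonneg.2 hst') (by linarith [m1.2.1, m2.2.2]) hκ.le
  -- continuity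
  have hcont : ContinuousOn D (Icc a b) := by
    intro t ht
    have ht0 : t ∈ Icc 0 T := ⟨ha0.trans ht.1, ht.2.trans hbT⟩
    have c1 : Tendsto (fun x => |∫ r in t..x, ψ r| + C * |x - t| ^ κ) (𝓝[Icc a b] t)
        (𝓝 (|∫ r in t..t, ψ r| + C * |t - t| ^ κ)) := by
      have c2 : ContinuousOn (fun x => ∫ τ in t..x, ψ τ) (uIcc 0 T) :=
        intervalIntegral.continuousOn_primitive_interval' hψi (by rwa [uIcc_of_le hT])
      rw [uIcc_of_le hT] at c2
      have c3 : ContinuousWithinAt (fun x => ∫ τ in t..x, ψ τ) (Icc a b) t :=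
        (c2 t ht0).mono (Icc_subset_Icc ha0 hbT)
      have c4 : Continuous fun x : ℝ => C * |x - t| ^ κ :=
        continuous_const.mul ((continuous_id.sub continuous_const).abs.rpow_const
          (fun _ => Or.inr hκ.le))
      exact c3.abs.add c4.continuousWithinAt
    rw [intervalIntegral.integral_same, abs_zero, sub_self, abs_zero, Real.zero_rpow hκ.ne',
      mul_zero, add_zero] at c1
    refine tendsto_iff_dist_tendsto_zero.2 (squeeze_zero' (Eventually.of_forall fun _ => dist_nonneg)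
      ?_ c1)
    filter_upwards [self_mem_nhdsWithin] with x hx
    rw [Real.dist_eq]
    rcases le_total t x with h | h
    · refine (hinc t x ht.1 h hx.2).trans ?_
      rw [abs_of_nonneg (sub_nonneg.2 h)]
      exact add_le_add (le_abs_self _) le_rfl
    · rw [abs_sub_comm]
      refine (hinc x t hx.1 h ht.2).trans ?_
      rw [abs_sub_comm x t, abs_of_nonneg (sub_nonneg.2 h), intervalIntegral.integral_symm x t,
        abs_neg]
      exact add_le_add (le_abs_self _) le_rfl
  -- the image of the interval is a null set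
  have himg : volume (D '' Icc a b) = 0 := by
    have h1 : D '' Icc a b ⊆ D '' F ∪ {D a} := by
      rintro _ ⟨x, hx, rfl⟩
      rcases hval x hx a le_rfl hx.1 with h | ⟨x', hx', h⟩
      · exact Or.inr (by rw [h]; rfl)
      · exact Or.inl ⟨x', hF x' hx'.1 (hnear x' ⟨hx'.2.1, hx'.2.2.trans hx.2⟩), h.symm⟩
    exact measure_mono_null h1 (measure_union_null hnull (measure_singleton _))
  have hconst : ∀ x ∈ Icc a b, ∀ y ∈ Icc a b, D x = D y := by
    have h1 : (D '' Icc a b).OrdConnected := (isPreconnected_Icc.image D hcont).ordConnected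
    have h2 : ∀ x ∈ Icc a b, ∀ y ∈ Icc a b, D x ≤ D y → D x = D y := by
      intro x hx y hy hxy
      have h3 := measure_mono_null (h1.out (mem_image_of_mem D hx) (mem_image_of_mem D hy)) himg
      rw [Real.volume_Icc, ENNReal.ofReal_eq_zero] at h3
      linarith
    intro x hx y hy
    rcases le_total (D x) (D y) with h | h
    · exact h2 x hx y hy h
    · exact (h2 y hy x hx h).symm
  intro hr
  obtain ⟨s, hs, hs1, hs2⟩ := hr.2 (δ / 2) (by positivity)
  rw [abs_lt] at hs1
  exact hs2 (hconst s ⟨max_le hs.1 (by linarith), le_min hs.2 (by linarith)⟩ t₀ ⟨hat, htb⟩)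

section

variable {Ω : Set E3} {ν T M : ℝ} {u : ℝ → L2V Ω} {G : ℝ → L2M Ω} {f : ℝ → L2V Ω}

theorem defect_bdd (hΩ : IsOpen Ω) (hν : 0 ≤ ν) (hT : 0 < T) (h : IsWeakSolution Ω ν T u G f)
    (hM : ∀ t ∈ Icc 0 T, ‖u t‖ ≤ M) :
    ∀ t ∈ Icc 0 T, |defect ν u G f t| ≤ M ^ 2 + ∫ τ in (0 : ℝ)..T, |pow ν u G f τ| := by
  intro t ht
  have hp := pow_ii hΩ hν hT h hM
  have h1 : |∫ τ in (0 : ℝ)..t, pow ν u G f τ| ≤ ∫ τ in (0 : ℝ)..T, |pow ν u G f τ| :=
    (intervalIntegral.abs_integral_le_integral_abs ht.1).trans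
      (int_mono_set hp.abs (fun τ => abs_nonneg _) le_rfl le_rfl ht.1 ht.2 le_rfl)
  have h2 : ‖u t‖ ^ 2 ≤ M ^ 2 := pow_le_pow_left₀ (norm_nonneg _) (hM t ht) 2
  have h3 : ‖u 0‖ ^ 2 ≤ M ^ 2 := pow_le_pow_left₀ (norm_nonneg _) (hM 0 ⟨le_rfl, hT.le⟩) 2
  have h4 : 0 ≤ ‖u t‖ ^ 2 := by positivity
  have h5 : 0 ≤ ‖u 0‖ ^ 2 := by positivity
  rw [abs_le] at h1
  unfold defect
  rw [abs_le]
  constructor <;> linarith [h1.1, h1.2]

/-- **The carrier of the defect.** -/
theorem carrier (hΩ : IsOpen Ω) (hν : 0 ≤ ν) (hT : 0 < T) (h : IsWeakSolution Ω ν T u G f)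
    {θ : ℕ → ℝ → ℝ} (hθ0 : ∀ n t, 0 ≤ θ n t) (hθ : ∀ n, IntervalIntegrable (θ n) volume 0 T)
    {S : Set ℝ} {κ : ℝ} (hκ : 0 < κ) (hκ1 : κ ≤ 1) (hS : μH[κ] S = 0)
    (hall : ∀ t ∈ Icc 0 T, t ∉ S → ∃ n, TameAt T (fun τ => ‖G τ‖ ^ 2) (θ n) t) :
    rough T (defect ν u G f) = closure {t | t ∈ Icc 0 T ∧ t ∈ S ∧
      ¬ HolderAt T (defect ν u G f) κ t} ∧
    volume (defect ν u G f '' (Icc 0 T \ {t | t ∈ Icc 0 T ∧ t ∈ S ∧
      ¬ HolderAt T (defect ν u G f) κ t})) = 0 := by
  obtain ⟨M, hM⟩ := h.bdd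
  have hK := defect_bdd hΩ hν hT h hM
  set D := defect ν u G f with hD
  set g : ℝ → ℝ := fun τ => ‖G τ‖ ^ 2 with hg
  have hz : IntervalIntegrable (fun _ : ℝ => (0 : ℝ)) volume 0 T := intervalIntegrable_const
  have hhb : ∀ n : ℕ, ∀ s ∈ holN T D κ n, ∀ t ∈ holN T D κ n, 0 ≤ s → s ≤ t → t ≤ T →
      |D t - D s| ≤ (∫ r in s..t, (fun _ : ℝ => (0 : ℝ)) r) + n * (t - s) ^ κ := by
    intro n s hs t ht h0 hst htT
    have h1 := hs.2 t ht.1
    rw [abs_of_nonneg (sub_nonneg.2 hst)] at h1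
    simpa using h1
  -- the image of the times outside of `S`
  have hnull1 : volume (D '' (Icc 0 T \ S)) = 0 := by
    refine measure_mono_null (image_mono ?_) (tame_null hΩ hν hT h hθ0 hθ)
    rintro t ⟨ht, htS⟩
    exact ⟨ht, Or.inr (hall t ht htS)⟩
  have hnull2 : ∀ n : ℕ, volume (D '' (holN T D κ n ∩ S)) = 0 := by
    intro n
    exact image_null_holder (C := n) (ψ := fun _ => 0) (F := holN T D κ n) hT.le hκ hκ1
      (Nat.cast_nonneg n) (fun _ => le_rfl) hz (hhb n) (fun t ht => ht.1) inter_subset_left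
      (measure_mono_null inter_subset_right hS)
  have hnull3 : ∀ n : ℕ, volume (D '' holN T D κ n) = 0 := by
    intro n
    have h1 : holN T D κ n ⊆ (Icc 0 T \ S) ∪ (holN T D κ n ∩ S) := by
      intro t ht
      by_cases hs : t ∈ S
      · exact Or.inr ⟨ht, hs⟩
      · exact Or.inl ⟨ht.1, hs⟩
    refine measure_mono_null (image_mono h1) ?_
    rw [image_union]
    exact measure_union_null hnull1 (hnull2 n)
  refine ⟨Subset.antisymm ?_ ?_, ?_⟩
  · -- density
    set F : ℕ → Set ℝ := fun k => if k.unpair.1 = 0 then tame T g (wk θ k.unpair.2)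
      else holN T D κ k.unpair.2 with hF
    have hFc : ∀ k, IsClosed (F k) := by
      intro k
      simp only [hF]
      split_ifs
      · exact tame_closed _ _ _
      · exact holN_closed hκ _
    have key := rough_dense (T := T) (D := D) (F := F) (N := ∅) countable_empty hFc ?_ ?_
    · intro t₀ ht₀
      rw [Metric.mem_closure_iff]
      intro ε hε
      obtain ⟨t, ht, h1, _, h3⟩ := key t₀ ht₀ ε hε
      refine ⟨t, ⟨ht.1, ?_, ?_⟩, by rwa [Real.dist_eq, abs_sub_comm]⟩
      · by_contra hs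
        obtain ⟨n, hn⟩ := hall t ht.1 hs
        obtain ⟨k, hk⟩ := mem_tame_wk hΩ hν hT h hM hθ0 hθ ht.1 hn
        refine h3 (Nat.pair 0 k) ?_
        simp only [hF, Nat.unpair_pair, if_true]
        exact hk
      · intro hh
        obtain ⟨n, hn⟩ := mem_holN hκ hK ht.1 hh
        refine h3 (Nat.pair 1 n) ?_
        simp only [hF, Nat.unpair_pair, one_ne_zero, if_false]
        exact hn
    · intro k t₀ ht₀ δ hδ
      by_contra hcon
      push Not at hcon
      by_cases hk : k.unpair.1 = 0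
      · have e : F k = tame T g (wk θ k.unpair.2) := by simp only [hF]; rw [if_pos hk]
        rw [e] at hcon
        refine no_portion_local (C := 0) (κ := 1) one_pos le_rfl
          (wt2_nonneg hν hT hM (wk_nonneg hθ0 k.unpair.2))
          (wt2_ii hΩ hν hT h hM (wk_ii hθ k.unpair.2)) ?_ ?_ ?_ ?_ ht₀.1 hδ hcon ht₀
        · intro s hs t ht h0 hst htT
          rw [zero_mul, add_zero]
          exact defect_bound hΩ hν hT h hM (wk_nonneg hθ0 _) (wk_ii hθ _) hs ht h0 hst htT
        · intro p hp _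
          exact left_tame hΩ hν hT h hM (wk_nonneg hθ0 _) (wk_ii hθ _) hp
        · intro p hp _
          exact right_tame hΩ hν hT h hM (wk_nonneg hθ0 _) (wk_ii hθ _) hp
        · refine measure_mono_null (image_mono ?_) (tame_null hΩ hν hT h
            (θ := fun n => wk θ n) (fun n => wk_nonneg hθ0 n) (fun n => wk_ii hθ n))
          intro t ht
          refine ⟨ht.1, Or.inr ⟨k.unpair.2, 1, T, hT, fun x y hx hxy hy _ h1 h2 => ?_⟩⟩
          rw [one_mul]
          exact ht.2 x y hx hxy hy h1 h2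
      · have e : F k = holN T D κ k.unpair.2 := by
          simp only [hF]; rw [if_neg hk]
        rw [e] at hcon
        exact no_portion_local (C := k.unpair.2) (κ := κ) hκ (Nat.cast_nonneg _)
          (ψ := fun _ => 0) (fun _ => le_rfl) hz (hhb _)
          (fun p hp _ => holN_left hκ hp) (fun p hp _ => holN_right hκ hp) (hnull3 _) ht₀.1 hδ
          hcon ht₀
    · intro t₀ _ hN
      exact absurd hN (notMem_empty _)
  · -- the other inclusion
    refine closure_minimal ?_ (rough_closed T D)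
    rintro t ⟨ht, _, h2⟩
    by_contra hr
    exact h2 (holderAt_of_not_rough ht hr)
  · have h1 : Icc 0 T \ {t | t ∈ Icc 0 T ∧ t ∈ S ∧ ¬ HolderAt T D κ t}
        ⊆ (Icc 0 T \ S) ∪ ⋃ n : ℕ, holN T D κ n := by
      rintro t ⟨ht, hn⟩
      by_cases hs : t ∈ S
      · have hh : HolderAt T D κ t := by
          by_contra hh
          exact hn ⟨ht, hs, hh⟩
        obtain ⟨n, hn⟩ := mem_holN hκ hK ht hh
        exact Or.inr (mem_iUnion.2 ⟨n, hn⟩)
      · exact Or.inl ⟨ht, hs⟩
    refine measure_mono_null (image_mono h1) ?_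
    rw [image_union, image_iUnion]
    exact measure_union_null hnull1 (measure_iUnion_null hnull3)

end

end Pool.Agent.Helper30E
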