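import Pool.Agent.Helper30E.T7

/-!
The carrier of the energy defect: the theorem in terms of the public definitions.
-/

set_option autoImplicit false
set_option linter.unusedSectionVars false

open MeasureTheory Set Filter Topology
open scoped InnerProductSpace ENNReal ContDiff NNReal

namespace Pool.Agent.Helper30E

open H772R2.NS.Pub Pool.Agent.TH340.FF Pool.Agent.TH301.EQ

variable {Ω : Set R3} {ν T : ℝ} {u : ℝ → L2 Ω R3} {G : ℝ → L2 Ω Mat} {f : ℝ → L2 Ω R3}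

/-- The exceptional times: those at which neither the integral of `g` has the growth exponent `d`
nor the function `D` is Hölder continuous with the exponent `d`. -/
def exceptional (T : ℝ) (g D : ℝ → ℝ) (d : ℝ) : Set ℝ :=
  {t | t ∈ Icc 0 T ∧ ¬ GrowthE T g d t ∧ ¬ HolderAt T D d t}

theorem pub_carrier (hΩ : IsOpen Ω) (hν : 0 ≤ ν) (hT : 0 < T)
    (hu : IsWeakSolution Ω ν T u G f) {p : ℝ} (hp : 2 ≤ p) (hp' : p < 5 / 2)
    (hG : IntegrableOn (fun t => ‖G t‖ ^ p) (Ioo 0 T)) :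
    μH[(10 - 4 * p) / (10 - 3 * p)] (exceptional T (fun t => ‖G t‖ ^ p) (energyDefect ν u G f)
      ((10 - 4 * p) / (10 - 3 * p))) = 0 ∧
    rough T (energyDefect ν u G f) = closure (exceptional T (fun t => ‖G t‖ ^ p)
      (energyDefect ν u G f) ((10 - 4 * p) / (10 - 3 * p))) ∧
    volume (energyDefect ν u G f '' (Icc 0 T \ exceptional T (fun t => ‖G t‖ ^ p)
      (energyDefect ν u G f) ((10 - 4 * p) / (10 - 3 * p)))) = 0 := by
  set d := (10 - 4 * p) / (10 - 3 * p) with hd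
  have h3p : 0 < 10 - 3 * p := by linarith
  have hd0 : 0 < d := div_pos (by linarith) h3p
  have hd1 : d ≤ 1 := by
    rw [hd, div_le_one h3p]
    linarith
  have hγ0 : ∀ t, 0 ≤ (fun t => ‖G t‖ ^ p) t := fun t => Real.rpow_nonneg (norm_nonneg _) _
  have hγi := ii_of_on hT hG
  have hS := density_null hT.le hd0 hγ0 hγi
  have hsub : exceptional T (fun t => ‖G t‖ ^ p) (energyDefect ν u G f) d
      ⊆ {t | t ∈ Icc 0 T ∧ ¬ GrowthE T (fun t => ‖G t‖ ^ p) d t} := fun t ht => ⟨ht.1, ht.2.1⟩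
  have key := carrier (Ω := (Ω : Set H772R2.NS.E3)) hΩ hν hT (toNS hu)
    (θ := fun _ t => ‖G t‖ ^ p) (fun _ => hγ0) (fun _ => hγi) hd0 hd1 hS
    (fun t ht hn => by
      have hg : GrowthE T (fun t => ‖G t‖ ^ p) d t := by
        by_contra hg
        exact hn ⟨ht, hg⟩
      exact ⟨0, tame_of_growth (fun t => norm_nonneg _) hp hp' (ii_of_on hT (pub_G2 hu)) hγi ht
        hg⟩)
  have hE : {t | t ∈ Icc 0 T ∧ t ∈ {t | t ∈ Icc 0 T ∧ ¬ GrowthE T (fun t => ‖G t‖ ^ p) d t} ∧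
      ¬ HolderAt T (H772R2.NS.defect (H := H772R2.NS.L2V (Ω : Set H772R2.NS.E3))
      (K := H772R2.NS.L2M (Ω : Set H772R2.NS.E3)) ν u G f) d t}
      = exceptional T (fun t => ‖G t‖ ^ p) (energyDefect ν u G f) d := by
    ext t
    constructor
    · rintro ⟨ht, h1, h2⟩
      refine ⟨ht, h1.2, fun h3 => h2 ?_⟩
      obtain ⟨C, δ, hδ, h⟩ := h3
      refine ⟨C, δ, hδ, fun s hs hst => ?_⟩
      rw [← pub_defect_eq hΩ hν hT hu hs, ← pub_defect_eq hΩ hν hT hu ht]
      exact h s hs hst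
    · rintro ⟨ht, h1, h2⟩
      refine ⟨ht, ⟨ht, h1⟩, fun h3 => h2 ?_⟩
      obtain ⟨C, δ, hδ, h⟩ := h3
      refine ⟨C, δ, hδ, fun s hs hst => ?_⟩
      rw [pub_defect_eq hΩ hν hT hu hs, pub_defect_eq hΩ hν hT hu ht]
      exact h s hs hst
  rw [hE] at key
  refine ⟨measure_mono_null hsub hS, ?_, ?_⟩
  · rw [pub_rough hΩ hν hT hu]
    exact key.1
  · refine measure_mono_null ?_ key.2
    rintro _ ⟨t, ht, rfl⟩
    exact ⟨t, ht, (pub_defect_eq hΩ hν hT hu ht.1).symm⟩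

end Pool.Agent.Helper30E
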